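import Mathlib
import Pool.Agent.W930.CG.Cls

/-!
# Radical towers: ideal classes of radicals over a subfield
-/

set_option autoImplicit false

namespace Pool.Agent.H86RT

open Polynomial NumberField nonZeroDivisors Pool.Agent.W930.CG

/-- an `ℓ`-th root of an element of `k` which is not an `ℓ`-th power in `k` has trace zero -/
theorem trace_root {k K : Type} [Field k] [Field K] [Algebra k K] [FiniteDimensional k K]
    {ℓ : ℕ} (hℓ : ℓ.Prime) {x : K} {y : k} (hxy : x ^ ℓ = algebraMap k K y)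
    (hy : ∀ b : k, b ^ ℓ ≠ y) : Algebra.trace k K x = 0 := by
  have hirr := X_pow_sub_C_irreducible_of_prime hℓ hy
  have h2 := hℓ.two_le
  have hmin : minpoly k x = X ^ ℓ - C y := by
    symm
    apply minpoly.eq_of_irreducible_of_monic hirr
    · simp [hxy]
    · exact monic_X_pow_sub_C y hℓ.ne_zero
  rw [trace_eq_finrank_mul_minpoly_nextCoeff, hmin,
    nextCoeff_of_natDegree_pos (by rw [natDegree_X_pow_sub_C]; omega), natDegree_X_pow_sub_C,
    coeff_sub, coeff_X_pow, coeff_C, if_neg (by omega), if_neg (by omega)]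
  simp

/-- elements with ratios which are `ℓ`-th roots of non-powers are linearly independent -/
theorem card_le_of_ratio {k K : Type} [Field k] [Field K] [Algebra k K] [FiniteDimensional k K]
    [CharZero k] {ℓ : ℕ} (hℓ : ℓ.Prime) {ι : Type} [Fintype ι] (δ : ι → Kˣ)
    (h : ∀ a b : ι, a ≠ b → ∃ y : k, ((δ a / δ b : Kˣ) : K) ^ ℓ = algebraMap k K y ∧
      ∀ c : k, c ^ ℓ ≠ y) : Fintype.card ι ≤ Module.finrank k K := by
  classical
  have hli : LinearIndependent k (fun a => (δ a : K)) := by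
    rw [Fintype.linearIndependent_iff]
    intro c hc b
    have h1 : Algebra.trace k K ((∑ a, c a • (δ a : K)) * ((δ b)⁻¹ : Kˣ)) = 0 := by
      rw [hc, zero_mul, map_zero]
    rw [Finset.sum_mul, map_sum] at h1
    rw [Finset.sum_eq_single b] at h1
    · rw [smul_mul_assoc, Units.mul_inv, map_smul, smul_eq_mul] at h1
      have h2 : Algebra.trace k K (1 : K) = (Module.finrank k K : k) := by
        have := Algebra.trace_algebraMap (S := K) (1 : k)
        rw [map_one] at this
        rw [this, nsmul_eq_mul, mul_one]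
      rw [h2, mul_eq_zero] at h1
      rcases h1 with h1 | h1
      · exact h1
      · exact absurd (Nat.cast_eq_zero.1 h1) (Module.finrank_pos).ne'
    · intro a _ hab
      obtain ⟨y, hy1, hy2⟩ := h a b hab
      rw [smul_mul_assoc, map_smul, ← Units.val_mul, ← div_eq_mul_inv,
        trace_root hℓ hy1 hy2, smul_zero]
    · intro hb
      exact absurd (Finset.mem_univ b) hb
  exact hli.fintype_card_le_finrank

/-- the units modulo `ℓ`-th powers -/
theorem unit_class (K : Type) [Field K] [NumberField K] (ℓ : ℕ) (hℓ : ℓ.Prime) :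
    ∃ κ : (𝓞 K)ˣ → (Option (Fin (Units.rank K)) → Fin ℓ), ∀ u u', κ u = κ u' →
      ∃ w : (𝓞 K)ˣ, u = u' * w ^ ℓ := by
  classical
  obtain ⟨g, hg⟩ := IsCyclic.exists_generator (α := Units.torsion K)
  have key : ∀ u : (𝓞 K)ˣ, ∃ (j : ℤ) (e : Fin (Units.rank K) → ℤ),
      u = ((g ^ j : Units.torsion K) : (𝓞 K)ˣ) * ∏ i, (Units.fundSystem K i) ^ (e i) := by
    intro u
    obtain ⟨⟨ζ, e⟩, h1, -⟩ := Units.exist_unique_eq_mul_prod K u
    obtain ⟨j, hj⟩ := Subgroup.mem_zpowers_iff.1 (hg ζ)
    exact ⟨j, e, by rw [hj]; exact h1⟩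
  choose j e hje using key
  have hpos : 0 < ℓ := hℓ.pos
  refine ⟨fun u o => ⟨((o.elim (j u) (e u)) % (ℓ : ℤ)).toNat, ?_⟩, ?_⟩
  · have h1 := Int.emod_nonneg (o.elim (j u) (e u)) (by exact_mod_cast hpos.ne' : (ℓ : ℤ) ≠ 0)
    have h2 := Int.emod_lt_of_pos (o.elim (j u) (e u)) (by exact_mod_cast hpos : (0 : ℤ) < ℓ)
    omega
  · intro u u' h
    have h0 : ∀ o : Option (Fin (Units.rank K)),
        ∃ q : ℤ, o.elim (j u) (e u) = o.elim (j u') (e u') + ℓ * q := by
      intro o
      have h1 := congrFun h o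
      simp only [Fin.mk.injEq] at h1
      have h2 := Int.emod_nonneg (o.elim (j u) (e u)) (by exact_mod_cast hpos.ne' : (ℓ : ℤ) ≠ 0)
      have h3 := Int.emod_nonneg (o.elim (j u') (e u'))
        (by exact_mod_cast hpos.ne' : (ℓ : ℤ) ≠ 0)
      have h4 : o.elim (j u) (e u) % (ℓ : ℤ) = o.elim (j u') (e u') % (ℓ : ℤ) := by omega
      obtain ⟨q, hq⟩ := Int.ModEq.dvd (show (o.elim (j u') (e u')) ≡ o.elim (j u) (e u) [ZMOD ℓ]
        from h4.symm)
      exact ⟨q, by omega⟩
    choose q hq using h0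
    refine ⟨((g ^ q none : Units.torsion K) : (𝓞 K)ˣ) *
      ∏ i, (Units.fundSystem K i) ^ (q (some i)), ?_⟩
    have h5 := hq none
    have h6 : ∀ i, e u i = e u' i + ℓ * q (some i) := fun i => hq (some i)
    simp only [Option.elim] at h5
    rw [hje u, hje u', h5, mul_pow, ← Finset.prod_pow]
    have h7 : ∏ i, Units.fundSystem K i ^ e u i =
        (∏ i, Units.fundSystem K i ^ e u' i) * ∏ i, (Units.fundSystem K i ^ q (some i)) ^ ℓ := by
      rw [← Finset.prod_mul_distrib]
      refine Finset.prod_congr rfl fun i _ => ?_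
      rw [h6, zpow_add, mul_comm (ℓ : ℤ), zpow_mul, zpow_natCast]
    rw [h7, zpow_add, mul_comm (ℓ : ℤ), zpow_mul, zpow_natCast]
    push_cast
    rw [mul_mul_mul_comm]

theorem rank_lt (K : Type) [Field K] [NumberField K] :
    Units.rank K + 1 ≤ Module.finrank ℚ K := by
  classical
  have h1 := InfinitePlace.card_add_two_mul_card_eq_rank K
  have h2 := InfinitePlace.card_eq_nrRealPlaces_add_nrComplexPlaces (K := K)
  have h3 : 0 < Fintype.card (InfinitePlace K) := Fintype.card_pos
  unfold Units.rank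
  omega

/-- the basic bound: the relations between the classes of ideals `J i` whose `ℓ`-th powers are
generated by elements of `k` which are independent modulo `ℓ`-th powers -/
theorem fib (k K : Type) [Field k] [NumberField k] [Field K] [NumberField K] [Algebra k K]
    (N : ℕ) {ℓ : ℕ} (hℓ : ℓ.Prime) (z : Fin N → kˣ) (J : Fin N → (FractionalIdeal (𝓞 K)⁰ K)ˣ)
    (hJ : ∀ i, J i ^ ℓ = toPrincipalIdeal (𝓞 K) K (Units.map (algebraMap k K).toMonoidHom (z i)))
    (hz : ∀ (e : Fin N → ℤ) (y : kˣ), ∏ i, z i ^ e i = y ^ ℓ → ∀ i, (ℓ : ℤ) ∣ e i) :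
    {a : Fin N → ZMod ℓ | ∏ i, pi K (J i) ^ (a i).val = 1}.ncard ≤
      ℓ ^ (2 * Module.finrank ℚ K) := by
  classical
  have : Fact ℓ.Prime := ⟨hℓ⟩
  obtain ⟨κ, hκ⟩ := unit_class K ℓ hℓ
  set ι : (𝓞 K)ˣ →* Kˣ := Units.map (algebraMap (𝓞 K) K).toMonoidHom with hι
  set φ : kˣ →* Kˣ := Units.map (algebraMap k K).toMonoidHom with hφ
  set S : Set (Fin N → ZMod ℓ) := {a | ∏ i, pi K (J i) ^ (a i).val = 1} with hS
  have key : ∀ a ∈ S, ∃ (γ : Kˣ) (u : (𝓞 K)ˣ), γ ^ ℓ = ι u * φ (∏ i, z i ^ (a i).val) := by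
    intro a ha
    have h1 : pi K (∏ i, J i ^ (a i).val) = 1 := by
      rw [map_prod]
      refine Eq.trans (Finset.prod_congr rfl fun i _ => ?_) ha
      exact map_pow _ _ _
    obtain ⟨γ, hγ⟩ := pi_eq_one.1 h1
    have h2 : toPrincipalIdeal (𝓞 K) K (γ ^ ℓ) =
        toPrincipalIdeal (𝓞 K) K (φ (∏ i, z i ^ (a i).val)) := by
      rw [map_pow, hγ, map_prod, map_prod, ← Finset.prod_pow]
      refine Finset.prod_congr rfl fun i _ => ?_
      rw [map_pow, map_pow, ← hJ, ← pow_mul, ← pow_mul, mul_comm]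
    have h3 : toPrincipalIdeal (𝓞 K) K (γ ^ ℓ * (φ (∏ i, z i ^ (a i).val))⁻¹) = 1 := by
      rw [map_mul, map_inv, h2, mul_inv_cancel]
    obtain ⟨u, hu⟩ := unit_of_toPrincipal h3
    exact ⟨γ, u, by rw [hι, hu, inv_mul_cancel_right]⟩
  choose! γ u hγ using key
  set F : (Fin N → ZMod ℓ) → (Option (Fin (Units.rank K)) → Fin ℓ) := fun a => κ (u a) with hF
  have hSf : S.Finite := Set.toFinite _
  have hfib : ∀ v, (hSf.toFinset.filter fun a => F a = v).card ≤ Module.finrank k K := by
    intro v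
    rcases (hSf.toFinset.filter fun a => F a = v).eq_empty_or_nonempty with h0 | ⟨a0, ha0⟩
    · rw [h0]
      simp
    · have hmem : ∀ a : (hSf.toFinset.filter fun a => F a = v), (a : Fin N → ZMod ℓ) ∈ S ∧
          ∃ w : (𝓞 K)ˣ, u a = u a0 * w ^ ℓ := by
        intro a
        have ha := a.2
        rw [Finset.mem_filter, Set.Finite.mem_toFinset] at ha ha0
        exact ⟨ha.1, hκ _ _ (ha.2.trans ha0.2.symm)⟩
      choose hmS w hw using hmem
      have h1 := card_le_of_ratio (k := k) (K := K) hℓ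
        (ι := (hSf.toFinset.filter fun a => F a = v)) (fun a => γ a * (ι (w a))⁻¹) (by
          intro a b hab
          have hrat : ((γ a * (ι (w a))⁻¹) / (γ b * (ι (w b))⁻¹)) ^ ℓ =
              φ ((∏ i, z i ^ (((a : Fin N → ZMod ℓ) i).val : ℤ)) *
                (∏ i, z i ^ (((b : Fin N → ZMod ℓ) i).val : ℤ))⁻¹) := by
            have e1 := hγ a (hmS a)
            have e2 := hγ b (hmS b)
            rw [hw a, map_mul, map_pow] at e1
            rw [hw b, map_mul, map_pow] at e2
            rw [div_pow, mul_pow, mul_pow, e1, e2, map_mul, map_inv, inv_pow, inv_pow]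
            simp only [zpow_natCast]
            have e3 : ι (u a0) * ι (w a) ^ ℓ * φ (∏ i, z i ^ ((a : Fin N → ZMod ℓ) i).val) *
                (ι (w a) ^ ℓ)⁻¹ = ι (u a0) * φ (∏ i, z i ^ ((a : Fin N → ZMod ℓ) i).val) := by
              rw [mul_right_comm, mul_inv_cancel_right]
            have e4 : ι (u a0) * ι (w b) ^ ℓ * φ (∏ i, z i ^ ((b : Fin N → ZMod ℓ) i).val) *
                (ι (w b) ^ ℓ)⁻¹ = ι (u a0) * φ (∏ i, z i ^ ((b : Fin N → ZMod ℓ) i).val) := by
              rw [mul_right_comm, mul_inv_cancel_right]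
            rw [e3, e4, mul_div_mul_left_eq_div, div_eq_mul_inv]
          refine ⟨(((∏ i, z i ^ (((a : Fin N → ZMod ℓ) i).val : ℤ)) *
                (∏ i, z i ^ (((b : Fin N → ZMod ℓ) i).val : ℤ))⁻¹ : kˣ) : k), ?_, ?_⟩
          · rw [← Units.val_pow_eq_pow_val, hrat]
            rfl
          · intro c hc
            have hc0 : c ≠ 0 := by
              rintro rfl
              rw [zero_pow hℓ.ne_zero] at hc
              exact Units.ne_zero _ hc.symm
            have h2 := hz (fun i => (((a : Fin N → ZMod ℓ) i).val : ℤ) -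
              (((b : Fin N → ZMod ℓ) i).val : ℤ)) (Units.mk0 c hc0) (by
                apply Units.ext
                rw [Units.val_pow_eq_pow_val, Units.val_mk0, hc, ← Finset.prod_inv_distrib,
                  ← Finset.prod_mul_distrib]
                congr 1
                refine Finset.prod_congr rfl fun i _ => ?_
                rw [zpow_sub])
            apply hab
            apply Subtype.ext
            funext i
            have h6 : ((((a : Fin N → ZMod ℓ) i).val : ℤ) : ZMod ℓ) =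
                ((((b : Fin N → ZMod ℓ) i).val : ℤ) : ZMod ℓ) := by
              rw [← sub_eq_zero, ← Int.cast_sub]
              exact (ZMod.intCast_zmod_eq_zero_iff_dvd _ _).2 (h2 i)
            simpa using h6)
      rwa [Fintype.card_coe] at h1
  have hcount := Finset.card_le_mul_card_image_of_maps_to
    (s := hSf.toFinset) (t := (Finset.univ : Finset (Option (Fin (Units.rank K)) → Fin ℓ)))
    (f := F) (fun a _ => Finset.mem_univ _) (Module.finrank k K) (fun v _ => hfib v)
  rw [Set.ncard_eq_toFinset_card S hSf]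
  refine hcount.trans ?_
  rw [Finset.card_univ, Fintype.card_fun, Fintype.card_option, Fintype.card_fin, Fintype.card_fin]
  have h1 : Module.finrank k K ≤ Module.finrank ℚ K := by
    have h2 := Module.finrank_mul_finrank ℚ k K
    have h3 : 0 < Module.finrank ℚ k := Module.finrank_pos
    calc Module.finrank k K = 1 * Module.finrank k K := (one_mul _).symm
      _ ≤ Module.finrank ℚ k * Module.finrank k K := Nat.mul_le_mul_right _ h3
      _ = _ := h2
  have h2 : Module.finrank ℚ K ≤ ℓ ^ Module.finrank ℚ K := (Nat.lt_pow_self hℓ.one_lt).le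
  have h3 : ℓ ^ (Units.rank K + 1) ≤ ℓ ^ Module.finrank ℚ K :=
    Nat.pow_le_pow_right hℓ.pos (rank_lt K)
  calc Module.finrank k K * ℓ ^ (Units.rank K + 1)
      ≤ ℓ ^ Module.finrank ℚ K * ℓ ^ Module.finrank ℚ K := Nat.mul_le_mul (h1.trans h2) h3
    _ = ℓ ^ (2 * Module.finrank ℚ K) := by rw [← pow_add, two_mul]

end Pool.Agent.H86RT
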