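import Mathlib

/-!
# A ternary quadratic equation
-/

set_option autoImplicit false

namespace Pool.Agent.H86RT

/-- a primitive solution from a nonzero one -/
theorem exists_primitive {a b x y z : ℤ} (h0 : x ≠ 0 ∨ y ≠ 0 ∨ z ≠ 0)
    (h : a * x ^ 2 + b * y ^ 2 = z ^ 2) :
    ∃ x y z : ℤ, (∀ q : ℤ, Prime q → q ∣ x → q ∣ y → q ∣ z → False) ∧
      (x ≠ 0 ∨ y ≠ 0 ∨ z ≠ 0) ∧ a * x ^ 2 + b * y ^ 2 = z ^ 2 := by
  obtain ⟨n, hn⟩ : ∃ n : ℕ, n = x.natAbs + y.natAbs + z.natAbs := ⟨_, rfl⟩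
  induction n using Nat.strong_induction_on generalizing x y z with
  | _ n ih =>
    by_cases hp : ∀ q : ℤ, Prime q → q ∣ x → q ∣ y → q ∣ z → False
    · exact ⟨x, y, z, hp, h0, h⟩
    · push Not at hp
      obtain ⟨q, hq, ⟨x', rfl⟩, ⟨y', rfl⟩, ⟨z', rfl⟩, -⟩ := hp
      have hq2 : 2 ≤ q.natAbs := (Int.prime_iff_natAbs_prime.1 hq).two_le
      have h0' : x' ≠ 0 ∨ y' ≠ 0 ∨ z' ≠ 0 := by
        rcases h0 with h | h | h
        · exact Or.inl (right_ne_zero_of_mul h)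
        · exact Or.inr (Or.inl (right_ne_zero_of_mul h))
        · exact Or.inr (Or.inr (right_ne_zero_of_mul h))
      have h' : a * x' ^ 2 + b * y' ^ 2 = z' ^ 2 := by
        apply mul_left_cancel₀ (pow_ne_zero 2 hq.ne_zero)
        linear_combination h
      rw [Int.natAbs_mul, Int.natAbs_mul, Int.natAbs_mul] at hn
      refine ih (x'.natAbs + y'.natAbs + z'.natAbs) ?_ h0' h' rfl
      have hpos : 0 < x'.natAbs + y'.natAbs + z'.natAbs := by
        rcases h0' with h | h | h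
        · have := Int.natAbs_pos.2 h
          omega
        · have := Int.natAbs_pos.2 h
          omega
        · have := Int.natAbs_pos.2 h
          omega
      rw [hn, ← mul_add, ← mul_add]
      nlinarith

/-- a case of Legendre's theorem -/
theorem legendre {a b : ℕ} (ha : 0 < a) (hb : 0 < b) (hab : Nat.Coprime a b)
    (h1 : IsSquare (a : ZMod b)) (h2 : IsSquare (b : ZMod a)) :
    ∃ x y z : ℤ, (x ≠ 0 ∨ y ≠ 0 ∨ z ≠ 0) ∧ (a : ℤ) * x ^ 2 + (b : ℤ) * y ^ 2 = z ^ 2 := by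
  classical
  by_cases hsa : IsSquare a
  · obtain ⟨s, rfl⟩ := hsa
    refine ⟨1, 0, s, Or.inl one_ne_zero, ?_⟩
    push_cast
    ring
  by_cases hsb : IsSquare b
  · obtain ⟨s, rfl⟩ := hsb
    refine ⟨0, 1, s, Or.inr (Or.inl one_ne_zero), ?_⟩
    push_cast
    ring
  have hsab : ¬ IsSquare (a * b) := by
    rintro ⟨c, hc⟩
    apply hsa
    obtain ⟨d, hd⟩ := exists_eq_pow_of_mul_eq_pow (a := a) (b := b) (c := c) (k := 2)
      (Nat.isUnit_iff.2 hab) (by rw [hc, pow_two])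
    exact ⟨d, by rw [hd, pow_two]⟩
  have : NeZero a := ⟨ha.ne'⟩
  have : NeZero b := ⟨hb.ne'⟩
  obtain ⟨α, hα⟩ := h1
  obtain ⟨β, hβ⟩ := h2
  let S : Finset (ℕ × ℕ × ℕ) := Finset.range (Nat.sqrt b + 1) ×ˢ
    (Finset.range (Nat.sqrt a + 1) ×ˢ Finset.range (Nat.sqrt (a * b) + 1))
  let F : ℕ × ℕ × ℕ → ZMod b × ZMod a := fun p => ((p.2.2 : ZMod b) - α * p.1,
    (p.2.2 : ZMod a) - β * p.2.1)
  have hcard : (Finset.univ : Finset (ZMod b × ZMod a)).card < S.card := by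
    rw [Finset.card_univ, Fintype.card_prod, ZMod.card, ZMod.card, Finset.card_product,
      Finset.card_product, Finset.card_range, Finset.card_range, Finset.card_range]
    have e1 := Nat.lt_succ_sqrt' a
    have e2 := Nat.lt_succ_sqrt' b
    have e3 := Nat.lt_succ_sqrt' (a * b)
    simp only [Nat.succ_eq_add_one] at e1 e2 e3
    by_contra hcon
    push Not at hcon
    have e4 := Nat.mul_lt_mul'' (Nat.mul_lt_mul'' e2 e1) e3
    have e5 : ((Nat.sqrt b + 1) * ((Nat.sqrt a + 1) * (Nat.sqrt (a * b) + 1))) ^ 2 ≤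
      (b * a) ^ 2 := Nat.pow_le_pow_left hcon 2
    have e6 : ((Nat.sqrt b + 1) * ((Nat.sqrt a + 1) * (Nat.sqrt (a * b) + 1))) ^ 2 =
      (Nat.sqrt b + 1) ^ 2 * (Nat.sqrt a + 1) ^ 2 * (Nat.sqrt (a * b) + 1) ^ 2 := by ring
    have e7 : b * a * (a * b) = (b * a) ^ 2 := by ring
    rw [e6] at e5
    rw [e7] at e4
    exact absurd e4 (not_lt.2 e5)
  obtain ⟨p, hp, p', hp', hne, hF⟩ := Finset.exists_ne_map_eq_of_card_lt_of_maps_to hcard
    (f := F) (fun _ _ => Finset.mem_univ _)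
  obtain ⟨x1, y1, z1⟩ := p
  obtain ⟨x2, y2, z2⟩ := p'
  simp only [S, Finset.mem_product, Finset.mem_range] at hp hp'
  simp only [F, Prod.mk.injEq] at hF
  obtain ⟨hF1, hF2⟩ := hF
  set x : ℤ := (x1 : ℤ) - x2 with hx
  set y : ℤ := (y1 : ℤ) - y2 with hy
  set z : ℤ := (z1 : ℤ) - z2 with hz
  have h0 : x ≠ 0 ∨ y ≠ 0 ∨ z ≠ 0 := by
    by_contra hcon
    push Not at hcon
    obtain ⟨c1, c2, c3⟩ := hcon
    apply hne
    have d1 : x1 = x2 := by omega
    have d2 : y1 = y2 := by omega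
    have d3 : z1 = z2 := by omega
    rw [d1, d2, d3]
  have hsq : ∀ (c : ℕ) (u v : ℕ) , ¬ IsSquare c → u < Nat.sqrt c + 1 → v < Nat.sqrt c + 1 →
      ((u : ℤ) - v) ^ 2 < (c : ℤ) := by
    intro c u v hc hu hv
    have e1 : ((u : ℤ) - v) ^ 2 ≤ ((Nat.sqrt c : ℕ) : ℤ) ^ 2 := by
      apply sq_le_sq'
      · omega
      · omega
    have e2 : (Nat.sqrt c) ^ 2 ≤ c := Nat.sqrt_le' c
    have e3 : (Nat.sqrt c) ^ 2 ≠ c := fun h => hc ⟨Nat.sqrt c, by rw [← pow_two, h]⟩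
    have e4 : (Nat.sqrt c) ^ 2 < c := lt_of_le_of_ne e2 e3
    calc ((u : ℤ) - v) ^ 2 ≤ ((Nat.sqrt c : ℕ) : ℤ) ^ 2 := e1
      _ = (((Nat.sqrt c) ^ 2 : ℕ) : ℤ) := by push_cast; rfl
      _ < (c : ℤ) := by exact_mod_cast e4
  have bx : x ^ 2 < (b : ℤ) := hsq b x1 x2 hsb hp.1 hp'.1
  have by' : y ^ 2 < (a : ℤ) := hsq a y1 y2 hsa hp.2.1 hp'.2.1
  have bz : z ^ 2 < ((a * b : ℕ) : ℤ) := hsq (a * b) z1 z2 hsab hp.2.2 hp'.2.2
  have m1 : ((z : ℤ) : ZMod b) = α * (x : ZMod b) := by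
    rw [hx, hz]
    push_cast
    linear_combination hF1
  have m2 : ((z : ℤ) : ZMod a) = β * (y : ZMod a) := by
    rw [hy, hz]
    push_cast
    linear_combination hF2
  have d1 : (b : ℤ) ∣ (a : ℤ) * x ^ 2 + b * y ^ 2 - z ^ 2 := by
    rw [← ZMod.intCast_zmod_eq_zero_iff_dvd]
    push_cast
    rw [m1, hα, ZMod.natCast_self]
    ring
  have d2 : (a : ℤ) ∣ (a : ℤ) * x ^ 2 + b * y ^ 2 - z ^ 2 := by
    rw [← ZMod.intCast_zmod_eq_zero_iff_dvd]
    push_cast
    rw [m2, hβ, ZMod.natCast_self]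
    ring
  have d3 : (a : ℤ) * b ∣ (a : ℤ) * x ^ 2 + b * y ^ 2 - z ^ 2 :=
    (Nat.isCoprime_iff_coprime.2 hab).mul_dvd d2 d1
  obtain ⟨t, ht⟩ := d3
  have ha' : (0 : ℤ) < a := by exact_mod_cast ha
  have hb' : (0 : ℤ) < b := by exact_mod_cast hb
  have hab' : (0 : ℤ) < (a : ℤ) * b := mul_pos ha' hb'
  push_cast at bz
  have u1 : t < 2 := by
    by_contra hcon
    push Not at hcon
    have e1 : (a : ℤ) * x ^ 2 < a * b := mul_lt_mul_of_pos_left bx ha'
    have e2 : (b : ℤ) * y ^ 2 < b * a := mul_lt_mul_of_pos_left by' hb'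
    have e3 : (a : ℤ) * b * 2 ≤ a * b * t := mul_le_mul_of_nonneg_left hcon hab'.le
    nlinarith [sq_nonneg z]
  have u2 : -1 < t := by
    by_contra hcon
    push Not at hcon
    have e3 : (a : ℤ) * b * t ≤ a * b * (-1) := mul_le_mul_of_nonneg_left hcon hab'.le
    nlinarith [sq_nonneg x, sq_nonneg y, mul_nonneg ha'.le (sq_nonneg x),
      mul_nonneg hb'.le (sq_nonneg y)]
  have u3 : t = 0 ∨ t = 1 := by omega
  rcases u3 with rfl | rfl
  · exact ⟨x, y, z, h0, by linarith⟩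
  · refine ⟨x * z + b * y, y * z - a * x, z ^ 2 + a * b, Or.inr (Or.inr ?_), ?_⟩
    · have := sq_nonneg z
      exact ne_of_gt (by linarith)
    · have e1 : (a : ℤ) * x ^ 2 + b * y ^ 2 = z ^ 2 + a * b := by linarith
      have e2 : (a : ℤ) * (x * z + b * y) ^ 2 + b * (y * z - a * x) ^ 2 =
        (a * x ^ 2 + b * y ^ 2) * (z ^ 2 + a * b) := by ring
      rw [e2, e1, pow_two (z ^ 2 + (a : ℤ) * b)]

/-- squares modulo coprime moduli -/
theorem isSquare_mul {c : ℕ} {m n : ℕ} (hmn : Nat.Coprime m n) (h1 : IsSquare (c : ZMod m))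
    (h2 : IsSquare (c : ZMod n)) : IsSquare (c : ZMod (m * n)) := by
  obtain ⟨u, hu⟩ := h1
  obtain ⟨v, hv⟩ := h2
  let E := ZMod.chineseRemainder hmn
  refine ⟨E.symm (u, v), ?_⟩
  apply E.injective
  rw [map_mul, RingEquiv.apply_symm_apply, map_natCast]
  exact Prod.ext hu hv

/-- primes `≡ 1` mod `4` which are squares modulo each other -/
theorem exists_residues : ∃ p : ℕ → ℕ, (∀ i, (p i).Prime) ∧ (∀ i, p i % 4 = 1) ∧
    Function.Injective p ∧ ∀ i j, i ≠ j → IsSquare (p i : ZMod (p j)) := by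
  have hg : ∀ M : ℕ, ∃ p : ℕ, 0 < M → (p.Prime ∧ M < p ∧ p ≡ 1 [MOD 4 * M]) := by
    intro M
    rcases Nat.eq_zero_or_pos M with h | h
    · exact ⟨0, fun h' => absurd h (by omega)⟩
    · obtain ⟨p, h1, h2, h3⟩ := Nat.exists_prime_gt_modEq_one (k := 4 * M) M (by omega)
      exact ⟨p, fun _ => ⟨h1, h2, h3⟩⟩
  choose g hg using hg
  let P : ℕ → ℕ := fun n => Nat.rec 1 (fun _ M => M * g M) n
  have hP0 : P 0 = 1 := rfl
  have hPs : ∀ n, P (n + 1) = P n * g (P n) := fun _ => rfl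
  have hPpos : ∀ n, 0 < P n := by
    intro n
    induction n with
    | zero => rw [hP0]; exact one_pos
    | succ n ih => rw [hPs]; exact Nat.mul_pos ih (hg _ ih).1.pos
  have hdvd : ∀ i j, i < j → g (P i) ∣ P j := by
    intro i j hij
    induction j with
    | zero => omega
    | succ j ih =>
      rw [hPs]
      rcases Nat.lt_succ_iff_lt_or_eq.1 hij with h | h
      · exact (ih h).mul_right _
      · rw [h]
        exact dvd_mul_left _ _
  have hprime : ∀ i, (g (P i)).Prime := fun i => (hg _ (hPpos i)).1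
  have hmod4 : ∀ i, g (P i) % 4 = 1 := by
    intro i
    have h1 := ((hg _ (hPpos i)).2.2).of_mul_right (P i)
    exact h1
  have hlt : ∀ i j, i < j → g (P i) < g (P j) := by
    intro i j hij
    have h1 := Nat.le_of_dvd (hPpos j) (hdvd i j hij)
    exact lt_of_le_of_lt h1 (hg _ (hPpos j)).2.1
  have hone : ∀ i j, i < j → IsSquare (g (P j) : ZMod (g (P i))) := by
    intro i j hij
    have h1 := ((hg _ (hPpos j)).2.2).of_mul_left 4
    have h2 : g (P j) ≡ 1 [MOD g (P i)] := h1.of_dvd (hdvd i j hij)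
    have h3 := (ZMod.natCast_eq_natCast_iff _ _ _).2 h2
    rw [h3, Nat.cast_one]
    exact IsSquare.one
  refine ⟨fun i => g (P i), hprime, hmod4, ?_, ?_⟩
  · intro i j hij
    rcases lt_trichotomy i j with h | h | h
    · exact absurd hij (hlt i j h).ne
    · exact h
    · exact absurd hij (hlt j i h).ne'
  · intro i j hij
    rcases lt_or_gt_of_ne hij with h | h
    · have : Fact (g (P i)).Prime := ⟨hprime i⟩
      have : Fact (g (P j)).Prime := ⟨hprime j⟩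
      have h2 : g (P j) ≠ 2 := by
        intro h2
        have := hmod4 j
        rw [h2] at this
        omega
      exact (ZMod.exists_sq_eq_prime_iff_of_mod_four_eq_one (hmod4 i) h2).1 (hone i j h)
    · exact hone j i h

end Pool.Agent.H86RT
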