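import Mathlib
import Pool.Agent.H86RT.Fib

/-!
# Radical extensions and totally ramified primes
-/

set_option autoImplicit false

namespace Pool.Agent.H86RT

open Polynomial NumberField nonZeroDivisors IsDedekindDomain Pool.Agent.W930.CG

/-- the radical extension -/
theorem exists_radical (k : Type) [Field k] [NumberField k] (e : ℕ) (he : 1 ≤ e) (n : 𝓞 k)
    (hirr : Irreducible (X ^ e - C (n : k))) :
    ∃ (K : Type) (_ : Field K) (_ : NumberField K) (_ : Algebra k K) (θ : 𝓞 K),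
      Module.finrank k K = e ∧ θ ^ e = algebraMap (𝓞 k) (𝓞 K) n := by
  have : Fact (Irreducible (X ^ e - C (n : k))) := ⟨hirr⟩
  let K := AdjoinRoot (X ^ e - C (n : k))
  have hmonic : (X ^ e - C (n : k)).Monic := monic_X_pow_sub_C _ (by omega)
  have hfin : FiniteDimensional k K := hmonic.finite_adjoinRoot
  have hchar : CharZero K := charZero_of_injective_algebraMap (algebraMap k K).injective
  have hfin2 : FiniteDimensional ℚ K := FiniteDimensional.trans ℚ k K
  have hNF : NumberField K := ⟨⟩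
  have hroot : (AdjoinRoot.root (X ^ e - C (n : k)) : K) ^ e = algebraMap k K (n : k) := by
    have h1 := AdjoinRoot.eval₂_root (X ^ e - C (n : k))
    rw [eval₂_sub, eval₂_X_pow, eval₂_C, sub_eq_zero] at h1
    exact h1
  have hint : IsIntegral ℤ (AdjoinRoot.root (X ^ e - C (n : k)) : K) := by
    apply IsIntegral.of_pow (n := e) (by omega)
    rw [hroot]
    exact (RingOfIntegers.isIntegral_coe n).map (Algebra.ofId k K |>.restrictScalars ℤ)
  refine ⟨K, inferInstance, hNF, inferInstance, ⟨AdjoinRoot.root _, hint⟩, ?_, ?_⟩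
  · rw [(AdjoinRoot.powerBasis hmonic.ne_zero).finrank, AdjoinRoot.powerBasis_dim,
      natDegree_X_pow_sub_C]
  · apply RingOfIntegers.ext
    exact hroot

section ideals

variable {R S : Type} [CommRing R] [IsDedekindDomain R] [CommRing S] [IsDedekindDomain S]

theorem sup_pow_le {I J : Ideal S} (e : ℕ) : (I ⊔ J) ^ e ≤ I ⊔ J ^ e := by
  induction e with
  | zero => simp
  | succ e ih =>
    rw [pow_succ]
    have h1 : (I ⊔ J) ^ e * (I ⊔ J) ≤ (I ⊔ J ^ e) * (I ⊔ J) := Ideal.mul_mono_left ih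
    refine h1.trans ?_
    rw [Ideal.sup_mul, Ideal.mul_sup (J ^ e), ← pow_succ]
    have h2 : I * (I ⊔ J) ≤ I := Ideal.mul_le_left
    have h3 : J ^ e * I ≤ I := Ideal.mul_le_right
    exact sup_le (h2.trans le_sup_left) (sup_le (h3.trans le_sup_left) le_sup_right)

theorem sup_span_eq {q : Ideal R} (hq : Prime q) {n : R} (h1 : n ∈ q) (h2 : n ∉ q ^ 2) {e : ℕ}
    (he : 1 ≤ e) : q ^ e ⊔ Ideal.span {n} = q := by
  have hqt : q ≠ ⊤ := by
    intro h
    exact hq.not_isUnit (Ideal.isUnit_iff.2 h)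
  have h3 : q ^ e ⊔ Ideal.span {n} ∣ q ^ e := Ideal.dvd_iff_le.2 le_sup_left
  obtain ⟨j, hj, hj2⟩ := (dvd_prime_pow hq e).1 h3
  rw [associated_iff_eq] at hj2
  have h4 : n ∈ q ^ j := by
    rw [← hj2]
    exact (le_sup_right : Ideal.span {n} ≤ _) (Ideal.mem_span_singleton_self n)
  rcases Nat.lt_or_ge j 2 with h5 | h5
  · interval_cases j
    · exfalso
      apply hqt
      rw [pow_zero, Ideal.one_eq_top] at hj2
      rw [eq_top_iff, ← hj2]
      refine sup_le ?_ ?_
      · exact Ideal.pow_le_self (by omega)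
      · rw [Ideal.span_singleton_le_iff_mem]
        exact h1
    · rw [hj2, pow_one]
  · exact absurd (Ideal.pow_le_pow_right h5 h4) h2

theorem ram_prime [Algebra R S] {q : Ideal R} (hq : Prime q) {n : R} (h1 : n ∈ q) (h2 : n ∉ q ^ 2)
    {e : ℕ} (he : 1 ≤ e) {θ : S} (hθ : θ ^ e = algebraMap R S n) :
    ∃ Q : Ideal S, Q ^ e = q.map (algebraMap R S) := by
  refine ⟨q.map (algebraMap R S) ⊔ Ideal.span {θ}, le_antisymm ?_ ?_⟩
  · refine (sup_pow_le e).trans (sup_le le_rfl ?_)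
    rw [Ideal.span_singleton_pow, hθ, Ideal.span_singleton_le_iff_mem]
    exact Ideal.mem_map_of_mem _ h1
  · conv_lhs => rw [← sup_span_eq hq h1 h2 he]
    rw [Ideal.map_sup, Ideal.map_pow, Ideal.map_span, Set.image_singleton, ← hθ,
      ← Ideal.span_singleton_pow]
    exact sup_le (Ideal.pow_right_mono le_sup_left e) (Ideal.pow_right_mono le_sup_right e)

theorem ram_ideal [Algebra R S] {n : R} {e : ℕ} (he : 1 ≤ e) {θ : S}
    (hθ : θ ^ e = algebraMap R S n) (I : Ideal R) (hI : I ≠ 0)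
    (h : ∀ q : Ideal R, Prime q → q ∣ I → n ∈ q ∧ n ∉ q ^ 2) :
    ∃ Q : Ideal S, Q ^ e = I.map (algebraMap R S) := by
  revert hI h
  refine UniqueFactorizationMonoid.induction_on_prime I ?_ ?_ ?_
  · intro h
    exact absurd rfl h
  · intro x hx _ _
    refine ⟨1, ?_⟩
    rw [Ideal.isUnit_iff.1 hx, one_pow, Ideal.map_top, Ideal.one_eq_top]
  · intro a p ha hp ih _ h
    obtain ⟨Q, hQ⟩ := ih ha fun q hq hqa => h q hq (hqa.mul_left p)
    obtain ⟨Q', hQ'⟩ := ram_prime hp (h p hp (dvd_mul_right p a)).1 (h p hp (dvd_mul_right p a)).2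
      he hθ
    exact ⟨Q' * Q, by rw [mul_pow, hQ, hQ', Ideal.map_mul]⟩

/-- uniformizers at finitely many primes, units at others -/
theorem exists_unif (T : Finset (HeightOneSpectrum R)) (U : Set (HeightOneSpectrum R)) :
    ∃ n : R, ∀ v ∈ T, (v ∈ U → n ∈ v.asIdeal ∧ n ∉ v.asIdeal ^ 2) ∧
      (v ∉ U → n ∉ v.asIdeal) := by
  classical
  have h0 : ∀ v : HeightOneSpectrum R, ∃ x ∈ v.asIdeal, x ∉ v.asIdeal ^ 2 := by
    intro v
    obtain ⟨x, h1, h2⟩ := Ideal.exists_mem_pow_notMem_pow_succ v.asIdeal v.ne_bot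
      v.isPrime.ne_top 1
    exact ⟨x, by rwa [pow_one] at h1, h2⟩
  choose π hπ1 hπ2 using h0
  obtain ⟨y, hy⟩ := exists_forall_sub_mem_ideal (s := T) (fun v => v.asIdeal) (fun _ => 2)
    (fun v _ => v.prime) (fun v _ w _ hvw h => hvw (HeightOneSpectrum.ext h))
    (fun v => if v.1 ∈ U then π v.1 else 1)
  refine ⟨y, fun v hv => ?_⟩
  have h1 := hy v hv
  constructor
  · intro hU
    simp only [hU, if_true] at h1
    constructor
    · have h2 := Ideal.pow_le_self (two_ne_zero) h1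
      have h3 := Ideal.add_mem _ h2 (hπ1 v)
      rwa [sub_add_cancel] at h3
    · intro h2
      apply hπ2 v
      have h3 := Ideal.sub_mem _ h2 h1
      rwa [sub_sub_cancel] at h3
  · intro hU h2
    simp only [hU, if_false] at h1
    have h3 := Ideal.sub_mem _ h2 (Ideal.pow_le_self (two_ne_zero) h1)
    rw [sub_sub_cancel] at h3
    exact v.isPrime.ne_top ((Ideal.eq_top_iff_one _).2 h3)

end ideals

/-- many primes which do not divide a given ideal -/
theorem exists_primes (k : Type) [Field k] [NumberField k] (N : ℕ) (I : Ideal (𝓞 k)) (hI : I ≠ 0) :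
    ∃ q : Fin N → HeightOneSpectrum (𝓞 k), Function.Injective q ∧ ∀ i, ¬ (q i).asIdeal ∣ I := by
  classical
  set M := Ideal.absNorm I with hM
  have hinf : {p : ℕ | p.Prime ∧ M < p}.Infinite := by
    rw [Set.infinite_iff_exists_gt]
    intro a
    obtain ⟨p, hp1, hp2⟩ := Nat.exists_infinite_primes (a + M + 1)
    exact ⟨p, ⟨hp2, by omega⟩, by omega⟩
  let g := Set.Infinite.natEmbedding _ hinf
  have hq : ∀ j : ℕ, ∃ v : HeightOneSpectrum (𝓞 k), (((g j : ℕ) : 𝓞 k)) ∈ v.asIdeal := by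
    intro j
    have hp : (g j : ℕ).Prime := (g j).2.1
    have hmax : (Ideal.span {((g j : ℕ) : ℤ)}).IsMaximal :=
      PrincipalIdealRing.isMaximal_of_irreducible (Nat.prime_iff_prime_int.1 hp).irreducible
    obtain ⟨Q, hQ1, hQ2⟩ := Ideal.exists_ideal_over_maximal_of_isIntegral (S := 𝓞 k)
      (Ideal.span {((g j : ℕ) : ℤ)}) (by
        rw [(RingHom.injective_iff_ker_eq_bot _).1 (FaithfulSMul.algebraMap_injective ℤ (𝓞 k))]
        exact bot_le)
    have hmem : (((g j : ℕ) : 𝓞 k)) ∈ Q := by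
      have h1 : ((g j : ℕ) : ℤ) ∈ Q.comap (algebraMap ℤ (𝓞 k)) := by
        rw [hQ2]
        exact Ideal.mem_span_singleton_self _
      rw [Ideal.mem_comap] at h1
      simpa using h1
    refine ⟨⟨Q, hQ1.isPrime, ?_⟩, hmem⟩
    rintro rfl
    rw [Ideal.mem_bot] at hmem
    exact hp.ne_zero (by exact_mod_cast hmem)
  choose v hv using hq
  refine ⟨fun i => v i, ?_, ?_⟩
  · intro i j hij
    by_contra hne
    have hne' : (g (i : ℕ) : ℕ) ≠ (g (j : ℕ) : ℕ) := fun h =>
      hne (Fin.ext (g.injective (Subtype.ext h)))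
    have hco : Nat.Coprime (g (i : ℕ) : ℕ) (g (j : ℕ) : ℕ) :=
      (Nat.coprime_primes (g (i : ℕ)).2.1 (g (j : ℕ)).2.1).2 hne'
    have h1 := hv i
    have h2 := hv j
    have hij' : v i = v j := hij
    rw [← hij'] at h2
    have h3 := Nat.isCoprime_iff_coprime.2 hco
    obtain ⟨a, b, hab⟩ := h3
    have h4 : ((a : ℤ) : 𝓞 k) * ((g (i : ℕ) : ℕ) : 𝓞 k) + ((b : ℤ) : 𝓞 k) *
        ((g (j : ℕ) : ℕ) : 𝓞 k) = 1 := by exact_mod_cast congrArg (fun x : ℤ => (x : 𝓞 k)) hab
    apply (v i).isPrime.ne_top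
    rw [Ideal.eq_top_iff_one, ← h4]
    exact Ideal.add_mem _ (Ideal.mul_mem_left _ _ h1) (Ideal.mul_mem_left _ _ h2)
  · intro i hdvd
    have h1 : ((M : ℕ) : 𝓞 k) ∈ (v i).asIdeal := Ideal.dvd_iff_le.1 hdvd (Ideal.absNorm_mem I)
    have hM0 : M ≠ 0 := by
      rw [hM, Ne, Ideal.absNorm_eq_zero_iff]
      exact hI
    have hco : Nat.Coprime M (g (i : ℕ) : ℕ) := by
      rw [Nat.coprime_comm, (g (i : ℕ)).2.1.coprime_iff_not_dvd]
      intro h
      exact absurd (Nat.le_of_dvd (Nat.pos_of_ne_zero hM0) h) (not_le.2 (g (i : ℕ)).2.2)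
    obtain ⟨a, b, hab⟩ := Nat.isCoprime_iff_coprime.2 hco
    have h4 : ((a : ℤ) : 𝓞 k) * ((M : ℕ) : 𝓞 k) + ((b : ℤ) : 𝓞 k) *
        ((g (i : ℕ) : ℕ) : 𝓞 k) = 1 := by exact_mod_cast congrArg (fun x : ℤ => (x : 𝓞 k)) hab
    apply (v i).isPrime.ne_top
    rw [Ideal.eq_top_iff_one, ← h4]
    exact Ideal.add_mem _ (Ideal.mul_mem_left _ _ h1) (Ideal.mul_mem_left _ _ (hv i))

/-- Eisenstein's criterion -/
theorem irr_of_unif (k : Type) [Field k] [NumberField k] (e : ℕ) (he : 1 ≤ e) (n : 𝓞 k)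
    (v : HeightOneSpectrum (𝓞 k)) (h1 : n ∈ v.asIdeal) (h2 : n ∉ v.asIdeal ^ 2) :
    Irreducible (X ^ e - C (n : k)) := by
  have hmonic : (X ^ e - C n : (𝓞 k)[X]).Monic := monic_X_pow_sub_C _ (by omega)
  have hE : (X ^ e - C n : (𝓞 k)[X]).IsEisensteinAt v.asIdeal := by
    refine ⟨?_, ?_, ?_⟩
    · rw [hmonic.leadingCoeff]
      exact fun h => v.isPrime.ne_top ((Ideal.eq_top_iff_one _).2 h)
    · intro j hj
      rw [natDegree_X_pow_sub_C] at hj
      rw [coeff_sub, coeff_X_pow, coeff_C, if_neg (by omega)]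
      split_ifs with h
      · simpa using h1
      · simp
    · rw [coeff_sub, coeff_X_pow, coeff_C, if_neg (by omega), if_pos rfl, zero_sub]
      intro h
      exact h2 (by simpa using h)
  have h3 := hE.irreducible v.isPrime hmonic.isPrimitive (by
    rw [natDegree_X_pow_sub_C]
    omega)
  have h4 := (hmonic.irreducible_iff_irreducible_map_fraction_map (K := k)).1 h3
  simpa using h4

end Pool.Agent.H86RT
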