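import Mathlib
import Pool.Agent.H86RT.Rad
import Pool.Agent.W240.CG.Grp

/-!
# Towers of radical extensions
-/

set_option autoImplicit false

namespace Pool.Agent.H86RT

open Polynomial NumberField nonZeroDivisors IsDedekindDomain Pool.Agent.W930.CG

section frac

variable {K : Type} [Field K] [NumberField K]

theorem mk0_principal {B : (Ideal (𝓞 K))⁰} {b : 𝓞 K} (h : (B : Ideal (𝓞 K)) = Ideal.span {b})
    {x : Kˣ} (hx : (x : K) = (b : K)) : FractionalIdeal.mk0 K B = toPrincipalIdeal (𝓞 K) K x := by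
  apply Units.ext
  rw [FractionalIdeal.coe_mk0, coe_toPrincipalIdeal, h, FractionalIdeal.coeIdeal_span_singleton,
    hx]

theorem mk0_inj {A B : (Ideal (𝓞 K))⁰} (h : FractionalIdeal.mk0 K A = FractionalIdeal.mk0 K B) :
    (A : Ideal (𝓞 K)) = B := by
  have h1 := congrArg (fun x : (FractionalIdeal (𝓞 K)⁰ K)ˣ => (x : FractionalIdeal (𝓞 K)⁰ K)) h
  simp only [FractionalIdeal.coe_mk0] at h1
  exact FractionalIdeal.coeIdeal_inj.1 h1

theorem principal_of_mk0 {B : (Ideal (𝓞 K))⁰} {x : Kˣ}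
    (h : toPrincipalIdeal (𝓞 K) K x = FractionalIdeal.mk0 K B) :
    ∃ b : 𝓞 K, (b : K) = x ∧ (B : Ideal (𝓞 K)) = Ideal.span {b} := by
  rw [toPrincipalIdeal_eq_iff, FractionalIdeal.coe_mk0] at h
  have h1 : (x : K) ∈ ((B : Ideal (𝓞 K)) : FractionalIdeal (𝓞 K)⁰ K) := by
    rw [← h]
    exact FractionalIdeal.mem_spanSingleton_self _ _
  rw [FractionalIdeal.mem_coeIdeal] at h1
  obtain ⟨b, -, hb⟩ := h1
  refine ⟨b, hb, ?_⟩
  have hb' : algebraMap (𝓞 K) K b = x := hb
  rw [← hb', ← FractionalIdeal.coeIdeal_span_singleton] at h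
  exact (FractionalIdeal.coeIdeal_inj.1 h).symm

theorem frac_rep (X : (FractionalIdeal (𝓞 K)⁰ K)ˣ) : ∃ (A : (Ideal (𝓞 K))⁰) (a : 𝓞 K) (x : Kˣ),
    (x : K) = a ∧ X * toPrincipalIdeal (𝓞 K) K x = FractionalIdeal.mk0 K A := by
  obtain ⟨a, A, ha, hI⟩ := FractionalIdeal.exists_eq_spanSingleton_mul
    (X : FractionalIdeal (𝓞 K)⁰ K)
  have ha' : (a : K) ≠ 0 := by
    intro h
    exact ha (RingOfIntegers.ext (by simpa using h))
  have hA : A ≠ 0 := by
    rintro rfl
    rw [Submodule.zero_eq_bot, FractionalIdeal.coeIdeal_bot, mul_zero] at hI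
    exact X.ne_zero hI
  refine ⟨⟨A, mem_nonZeroDivisors_of_ne_zero hA⟩, a, Units.mk0 (a : K) ha', rfl, ?_⟩
  apply Units.ext
  rw [Units.val_mul, FractionalIdeal.coe_mk0, coe_toPrincipalIdeal, hI, Units.val_mk0,
    mul_right_comm]
  have : FractionalIdeal.spanSingleton (𝓞 K)⁰ ((algebraMap (𝓞 K) K a)⁻¹) *
      FractionalIdeal.spanSingleton (𝓞 K)⁰ (a : K) = 1 := by
    rw [FractionalIdeal.spanSingleton_mul_spanSingleton]
    have : (algebraMap (𝓞 K) K a)⁻¹ * (a : K) = 1 := inv_mul_cancel₀ ha'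
    rw [this, FractionalIdeal.spanSingleton_one]
  rw [this, one_mul]

theorem pi_principal (x : Kˣ) : pi K (toPrincipalIdeal (𝓞 K) K x) = 1 := pi_eq_one.2 ⟨x, rfl⟩

theorem pi_surj (c : ClassGroup (𝓞 K)) : ∃ A : (Ideal (𝓞 K))⁰,
    pi K (FractionalIdeal.mk0 K A) = c := by
  obtain ⟨X, hX⟩ := QuotientGroup.mk'_surjective (toPrincipalIdeal (𝓞 K) K).range
    (ClassGroup.equiv (R := 𝓞 K) K c)
  obtain ⟨A, a, x, -, h⟩ := frac_rep X
  refine ⟨A, ?_⟩
  rw [← h, map_mul, pi_principal, mul_one]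
  unfold pi
  rw [MonoidHom.comp_apply, hX]
  exact (ClassGroup.equiv (R := 𝓞 K) K).symm_apply_apply c

theorem frac_torsion {X : (FractionalIdeal (𝓞 K)⁰ K)ˣ} {n : ℕ} (hn : n ≠ 0) (h : X ^ n = 1) :
    X = 1 := by
  classical
  obtain ⟨A, a, x, hx, h1⟩ := frac_rep X
  have ha : a ≠ 0 := by
    rintro rfl
    exact x.ne_zero (by rw [hx]; simp)
  let B : (Ideal (𝓞 K))⁰ := ⟨Ideal.span {a}, mem_nonZeroDivisors_of_ne_zero (by
    rw [Ne, Submodule.zero_eq_bot, Ideal.span_singleton_eq_bot]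
    exact ha)⟩
  have hB : FractionalIdeal.mk0 K B = toPrincipalIdeal (𝓞 K) K x := mk0_principal rfl hx
  have h2 : FractionalIdeal.mk0 K (A ^ n) = FractionalIdeal.mk0 K (B ^ n) := by
    rw [map_pow, map_pow, ← h1, mul_pow, h, one_mul, hB]
  have h3 := mk0_inj h2
  rw [SubmonoidClass.coe_pow, SubmonoidClass.coe_pow] at h3
  have h4 := congrArg UniqueFactorizationMonoid.normalizedFactors h3
  rw [UniqueFactorizationMonoid.normalizedFactors_pow,
    UniqueFactorizationMonoid.normalizedFactors_pow] at h4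
  have h5 : UniqueFactorizationMonoid.normalizedFactors (A : Ideal (𝓞 K)) =
      UniqueFactorizationMonoid.normalizedFactors (B : Ideal (𝓞 K)) := by
    ext q
    have h6 := congrArg (Multiset.count q) h4
    rw [Multiset.count_nsmul, Multiset.count_nsmul] at h6
    exact Nat.eq_of_mul_eq_mul_left (Nat.pos_of_ne_zero hn) h6
  have h7 : (A : Ideal (𝓞 K)) = B := by
    rw [← Ideal.prod_normalizedFactors_eq_self (nonZeroDivisors.ne_zero A.2), h5,
      Ideal.prod_normalizedFactors_eq_self (nonZeroDivisors.ne_zero B.2)]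
  have h8 : A = B := Subtype.ext h7
  rw [h8, hB] at h1
  exact mul_eq_right.1 h1

/-- the order at a prime, as a homomorphism -/
noncomputable def ord (v : HeightOneSpectrum (𝓞 K)) : Kˣ →* Multiplicative ℤ :=
  (WithZero.unitsWithZeroEquiv (α := Multiplicative ℤ)).toMonoidHom.comp
    (Units.map (v.valuation K : Valuation K _).toMonoidWithZeroHom.toMonoidHom)

theorem ord_coe (v : HeightOneSpectrum (𝓞 K)) (x : Kˣ) :
    ((ord v x : Multiplicative ℤ) : WithZero (Multiplicative ℤ)) = v.valuation K (x : K) := by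
  unfold ord
  rw [MonoidHom.comp_apply]
  exact WithZero.coe_unitsWithZeroEquiv_eq_units_val _

theorem ord_eq_one {v : HeightOneSpectrum (𝓞 K)} {x : Kˣ} {a : 𝓞 K} (hx : (x : K) = a)
    (ha : a ∉ v.asIdeal) : ord v x = 1 := by
  apply WithZero.coe_injective
  have h1 : v.valuation K (algebraMap (𝓞 K) K a) = 1 := by
    rw [HeightOneSpectrum.valuation_of_algebraMap, HeightOneSpectrum.intValuation_eq_one_iff]
    exact ha
  rw [ord_coe, hx, WithZero.coe_one]
  exact h1

theorem ord_eq_neg_one {v : HeightOneSpectrum (𝓞 K)} {x : Kˣ} {a : 𝓞 K} (hx : (x : K) = a)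
    (h1 : a ∈ v.asIdeal) (h2 : a ∉ v.asIdeal ^ 2) : ord v x = Multiplicative.ofAdd (-1) := by
  apply WithZero.coe_injective
  have h3 : v.intValuation a ≤ WithZero.exp (-((1 : ℕ) : ℤ)) :=
    (HeightOneSpectrum.intValuation_le_pow_iff_mem v a 1).2 (by rwa [pow_one])
  have h4 : ¬ v.intValuation a ≤ WithZero.exp (-((2 : ℕ) : ℤ)) := fun h =>
    h2 ((HeightOneSpectrum.intValuation_le_pow_iff_mem v a 2).1 h)
  have h5 := ord_coe v x
  rw [hx] at h5
  have h6 : v.valuation K (algebraMap (𝓞 K) K a) = v.intValuation a :=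
    HeightOneSpectrum.valuation_of_algebraMap v a
  change _ = v.valuation K (algebraMap (𝓞 K) K a) at h5
  rw [h6] at h5
  rw [← h5] at h3 h4
  have h7 : Multiplicative.toAdd (ord v x) ≤ -1 := by
    have : ((ord v x : Multiplicative ℤ) : WithZero (Multiplicative ℤ)) ≤
      ((Multiplicative.ofAdd (-1 : ℤ) : Multiplicative ℤ) : WithZero (Multiplicative ℤ)) := h3
    exact WithZero.coe_le_coe.1 this
  have h8 : ¬ Multiplicative.toAdd (ord v x) ≤ -2 := by
    intro h
    apply h4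
    have : ((ord v x : Multiplicative ℤ) : WithZero (Multiplicative ℤ)) ≤
      ((Multiplicative.ofAdd (-2 : ℤ) : Multiplicative ℤ) : WithZero (Multiplicative ℤ)) :=
      WithZero.coe_le_coe.2 h
    exact this
  have h9 : ord v x = Multiplicative.ofAdd (-1) := by
    apply Multiplicative.toAdd.injective
    rw [toAdd_ofAdd]
    omega
  rw [h9]

end frac

end Pool.Agent.H86RT
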