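import Mathlib
import Pool.Agent.H86RT.Tower

/-!
# The step in the tower
-/

set_option autoImplicit false

namespace Pool.Agent.H86RT

open Polynomial NumberField nonZeroDivisors IsDedekindDomain Pool.Agent.W930.CG

/-- For every `r` there is a number field of degree `d` whose class group contains
`(ℤ/m)^r`. -/
def UnboundedRank (d m : ℕ) : Prop :=
  ∀ r : ℕ, ∃ (K : Type) (_ : Field K) (_ : NumberField K), Module.finrank ℚ K = d ∧
    ∃ f : Multiplicative (Fin r → ZMod m) →* ClassGroup (𝓞 K), Function.Injective f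

/-- independence of the generators of the `m`-th powers of the ideals -/
theorem indep {k : Type} [Field k] [NumberField k] {N m : ℕ} (hm : 1 ≤ m)
    (f : Multiplicative (Fin N → ZMod m) →* ClassGroup (𝓞 k)) (hf : Function.Injective f)
    (B : Fin N → (FractionalIdeal (𝓞 k)⁰ k)ˣ)
    (hB : ∀ i, pi k (B i) = f (Multiplicative.ofAdd (Pi.single i 1)))
    (z : Fin N → kˣ) (hz : ∀ i, B i ^ m = toPrincipalIdeal (𝓞 k) k (z i))
    (v : Fin N → HeightOneSpectrum (𝓞 k))
    (hv1 : ∀ i, ord (v i) (z i) = Multiplicative.ofAdd (-(m : ℤ)))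
    (hv2 : ∀ i j, i ≠ j → ord (v i) (z j) = 1) {ℓ : ℕ} (hℓ : ℓ.Prime)
    (b : Fin N → ℤ) (y : kˣ) (h : ∏ i, z i ^ b i = y ^ ℓ) : ∀ i, (ℓ : ℤ) ∣ b i := by
  classical
  by_cases hd : ℓ ∣ m
  · obtain ⟨t, rfl⟩ := hd
    have ht : t ≠ 0 := by
      rintro rfl
      omega
    have h1 : (∏ i, B i ^ ((t : ℤ) * b i)) * (toPrincipalIdeal (𝓞 k) k y)⁻¹ = 1 := by
      apply frac_torsion hℓ.ne_zero
      rw [mul_pow, inv_pow, ← map_pow, ← h, map_prod, ← Finset.prod_pow, mul_inv_eq_one]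
      refine Finset.prod_congr rfl fun i _ => ?_
      rw [map_zpow, ← hz, ← zpow_natCast (B i) (ℓ * t), ← zpow_mul,
        ← zpow_natCast (B i ^ ((t : ℤ) * b i)) ℓ, ← zpow_mul]
      congr 1
      push_cast
      ring
    have h2 : pi k (∏ i, B i ^ ((t : ℤ) * b i)) = 1 := by
      rw [mul_inv_eq_one.1 h1, pi_principal]
    rw [map_prod] at h2
    have h3 : f (Multiplicative.ofAdd (fun i => (((t : ℤ) * b i : ℤ) : ZMod (ℓ * t)))) = 1 := by
      rw [← h2]
      have h4 : (Multiplicative.ofAdd (fun i => (((t : ℤ) * b i : ℤ) : ZMod (ℓ * t)))) =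
          ∏ i, (Multiplicative.ofAdd (Pi.single i 1 : Fin N → ZMod (ℓ * t))) ^ ((t : ℤ) * b i) := by
        apply Multiplicative.toAdd.injective
        rw [toAdd_prod, toAdd_ofAdd]
        funext j
        rw [Finset.sum_apply, Finset.sum_eq_single j]
        · rw [toAdd_zpow, toAdd_ofAdd, Pi.smul_apply, Pi.single_eq_same, zsmul_eq_mul, mul_one]
        · intro i _ hij
          rw [toAdd_zpow, toAdd_ofAdd, Pi.smul_apply, Pi.single_eq_of_ne hij.symm, smul_zero]
        · intro hj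
          exact absurd (Finset.mem_univ j) hj
      rw [h4, map_prod]
      refine Finset.prod_congr rfl fun i _ => ?_
      rw [map_zpow, map_zpow, hB]
    have h5 := hf (h3.trans (map_one f).symm)
    intro i
    have h6 := congrFun (congrArg Multiplicative.toAdd h5) i
    rw [toAdd_ofAdd, toAdd_one, Pi.zero_apply, ZMod.intCast_zmod_eq_zero_iff_dvd] at h6
    push_cast at h6
    rw [mul_comm (ℓ : ℤ)] at h6
    exact Int.dvd_of_mul_dvd_mul_left (by exact_mod_cast ht) h6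
  · intro i
    have h1 := congrArg (ord (v i)) h
    rw [map_prod, map_pow, Finset.prod_eq_single i] at h1
    · rw [map_zpow, hv1] at h1
      have h2 := congrArg Multiplicative.toAdd h1
      rw [toAdd_zpow, toAdd_pow, toAdd_ofAdd, smul_eq_mul, nsmul_eq_mul] at h2
      have h3 : (ℓ : ℤ) ∣ b i * (m : ℤ) := ⟨-(Multiplicative.toAdd (ord (v i) y)), by
        linarith⟩
      rcases (Nat.prime_iff_prime_int.1 hℓ).dvd_or_dvd h3 with h4 | h4
      · exact h4
      · exact absurd (Int.natCast_dvd_natCast.1 h4) hd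
    · intro j _ hij
      rw [map_zpow, hv2 i j hij.symm, one_zpow]
    · intro hi
      exact absurd (Finset.mem_univ i) hi

theorem step (d m e : ℕ) (hm : 1 ≤ m) (he : 2 ≤ e) (h : UnboundedRank d m) :
    UnboundedRank (d * e) (m * e) := by
  classical
  intro r
  have hd : 1 ≤ d := by
    obtain ⟨k, _, _, hk, -⟩ := h 0
    rw [← hk]
    exact Module.finrank_pos
  have hD : 1 ≤ d * e := Nat.mul_pos hd (by omega)
  set D := d * e with hDdef
  obtain ⟨N, hN⟩ : ∃ N, N = r + 2 * D := ⟨_, rfl⟩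
  obtain ⟨k, _, _, hk, f, hf⟩ := h N
  have hN1 : 0 < N := by omega
  choose A hA using fun i : Fin N => pi_surj (K := k) (f (Multiplicative.ofAdd (Pi.single i 1)))
  have hsingle : ∀ i : Fin N,
      (Multiplicative.ofAdd (Pi.single i 1 : Fin N → ZMod m)) ^ m = 1 := by
    intro i
    apply Multiplicative.toAdd.injective
    rw [toAdd_pow, toAdd_ofAdd, toAdd_one, ← Pi.single_smul, nsmul_eq_mul, mul_one,
      ZMod.natCast_self, Pi.single_zero]
  have ha : ∀ i, ∃ a : 𝓞 k, ((A i ^ m : (Ideal (𝓞 k))⁰) : Ideal (𝓞 k)) = Ideal.span {a} := by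
    intro i
    have h1 : pi k (FractionalIdeal.mk0 k (A i ^ m)) = 1 := by
      rw [map_pow, map_pow, hA, ← map_pow, hsingle, map_one]
    obtain ⟨x, hx⟩ := pi_eq_one.1 h1
    obtain ⟨a, -, ha⟩ := principal_of_mk0 hx
    exact ⟨a, ha⟩
  choose a ha using ha
  have hA0 : ∀ i, (A i : Ideal (𝓞 k)) ≠ 0 := fun i => nonZeroDivisors.ne_zero (A i).2
  obtain ⟨q, hqinj, hq⟩ := exists_primes k N (∏ i, (A i : Ideal (𝓞 k)))
    (Finset.prod_ne_zero_iff.2 fun i _ => hA0 i)
  have hxi : ∀ i : Fin N, ∃ x : 𝓞 k, (x ∈ (q i).asIdeal ∧ x ∉ (q i).asIdeal ^ 2) ∧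
      ∀ j, j ≠ i → x ∉ (q j).asIdeal := by
    intro i
    obtain ⟨x, hx⟩ := exists_unif (Finset.univ.image q) {q i}
    refine ⟨x, (hx (q i) (Finset.mem_image_of_mem _ (Finset.mem_univ _))).1 rfl, ?_⟩
    intro j hj
    exact (hx (q j) (Finset.mem_image_of_mem _ (Finset.mem_univ _))).2
      (fun hmem => hj (hqinj hmem))
  choose x hx1 hx2 using hxi
  have hx0 : ∀ i, x i ≠ 0 := fun i h0 => (hx1 i).2 (by rw [h0]; exact Ideal.zero_mem _)
  let X : Fin N → (Ideal (𝓞 k))⁰ := fun i => ⟨Ideal.span {x i}, mem_nonZeroDivisors_of_ne_zero (by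
    rw [Ne, Submodule.zero_eq_bot, Ideal.span_singleton_eq_bot]
    exact hx0 i)⟩
  let B : Fin N → (Ideal (𝓞 k))⁰ := fun i => X i * A i
  have haq : ∀ i j, a i ∉ (q j).asIdeal := by
    intro i j hmem
    apply hq j
    have h1 : (A i : Ideal (𝓞 k)) ^ m ≤ (q j).asIdeal := by
      have := ha i
      rw [SubmonoidClass.coe_pow] at this
      rw [this, Ideal.span_singleton_le_iff_mem]
      exact hmem
    have h2 : (A i : Ideal (𝓞 k)) ≤ (q j).asIdeal := (q j).isPrime.le_of_pow_le h1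
    exact (Ideal.dvd_iff_le.2 h2).trans (Finset.dvd_prod_of_mem _ (Finset.mem_univ i))
  have ha0 : ∀ i, a i ≠ 0 := fun i h0 => haq i ⟨0, hN1⟩ (by rw [h0]; exact Ideal.zero_mem _)
  have hval : ∀ w : 𝓞 k, w ≠ 0 → (w : k) ≠ 0 := fun w hw h0 =>
    hw (RingOfIntegers.ext (by simpa using h0))
  let z : Fin N → kˣ := fun i => Units.mk0 (x i : k) (hval _ (hx0 i)) ^ m *
    Units.mk0 (a i : k) (hval _ (ha0 i))
  have hzval : ∀ i, ((z i : kˣ) : k) = ((x i ^ m * a i : 𝓞 k) : k) := by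
    intro i
    simp [z]
  have hBm : ∀ i, ((B i ^ m : (Ideal (𝓞 k))⁰) : Ideal (𝓞 k)) = Ideal.span {x i ^ m * a i} := by
    intro i
    have h1 := ha i
    rw [SubmonoidClass.coe_pow] at h1 ⊢
    change (Ideal.span {x i} * (A i : Ideal (𝓞 k))) ^ m = _
    rw [mul_pow, h1, Ideal.span_singleton_pow, Ideal.span_singleton_mul_span_singleton]
  have hBz : ∀ i, FractionalIdeal.mk0 k (B i) ^ m = toPrincipalIdeal (𝓞 k) k (z i) := by
    intro i
    rw [← map_pow]
    exact mk0_principal (hBm i) (hzval i)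
  have hpiB : ∀ i, pi k (FractionalIdeal.mk0 k (B i)) =
      f (Multiplicative.ofAdd (Pi.single i 1)) := by
    intro i
    have h1 : FractionalIdeal.mk0 k (X i) = toPrincipalIdeal (𝓞 k) k
      (Units.mk0 (x i : k) (hval _ (hx0 i))) := mk0_principal rfl rfl
    change pi k (FractionalIdeal.mk0 k (X i * A i)) = _
    rw [map_mul, map_mul, h1, pi_principal, one_mul, hA]
  have hord1 : ∀ i, ord (q i) (z i) = Multiplicative.ofAdd (-(m : ℤ)) := by
    intro i
    change ord (q i) (_ ^ m * _) = _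
    rw [map_mul, map_pow, ord_eq_neg_one (x := Units.mk0 (x i : k) (hval _ (hx0 i))) rfl
      (hx1 i).1 (hx1 i).2, ord_eq_one (x := Units.mk0 (a i : k) (hval _ (ha0 i))) rfl (haq i i),
      mul_one, ← ofAdd_nsmul]
    simp
  have hord2 : ∀ i j, i ≠ j → ord (q i) (z j) = 1 := by
    intro i j hij
    change ord (q i) (_ ^ m * _) = _
    rw [map_mul, map_pow, ord_eq_one (x := Units.mk0 (x j : k) (hval _ (hx0 j))) rfl
      (hx2 j i hij), ord_eq_one (x := Units.mk0 (a j : k) (hval _ (ha0 j))) rfl (haq j i),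
      one_pow, one_mul]
  have hind := fun (ℓ : ℕ) (hℓ : ℓ.Prime) => indep hm f hf (fun i => FractionalIdeal.mk0 k (B i))
    hpiB z hBz q hord1 hord2 hℓ
  have hB0 : ∀ i, (B i : Ideal (𝓞 k)) ≠ 0 := fun i => nonZeroDivisors.ne_zero (B i).2
  have hfin := Ideal.finite_factors (I := ∏ i, (B i : Ideal (𝓞 k)))
    (Finset.prod_ne_zero_iff.2 fun i _ => hB0 i)
  obtain ⟨n, hn⟩ := exists_unif hfin.toFinset Set.univ
  have hn' : ∀ v : HeightOneSpectrum (𝓞 k), ∀ i, v.asIdeal ∣ (B i : Ideal (𝓞 k)) →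
      n ∈ v.asIdeal ∧ n ∉ v.asIdeal ^ 2 := by
    intro v i hvi
    refine (hn v ?_).1 (Set.mem_univ _)
    rw [Set.Finite.mem_toFinset]
    exact hvi.trans (Finset.dvd_prod_of_mem _ (Finset.mem_univ i))
  have hq0 := hn' (q ⟨0, hN1⟩) ⟨0, hN1⟩ (by
    change _ ∣ Ideal.span {x _} * _
    exact Dvd.dvd.mul_right (Ideal.dvd_span_singleton.2 (hx1 _).1) _)
  obtain ⟨K, _, _, _, θ, hdeg, hθ⟩ := exists_radical k e (by omega) n
    (irr_of_unif k e (by omega) n _ hq0.1 hq0.2)
  have hdegK : Module.finrank ℚ K = D := by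
    rw [← Module.finrank_mul_finrank ℚ k K, hk, hdeg]
  have hW : ∀ i, ∃ Q : Ideal (𝓞 K), Q ^ e = (B i : Ideal (𝓞 k)).map (algebraMap (𝓞 k) (𝓞 K)) := by
    intro i
    refine ram_ideal (by omega) hθ _ (hB0 i) ?_
    intro p hp hpd
    exact hn' ⟨p, Ideal.isPrime_of_prime hp, hp.ne_zero⟩ i hpd
  choose W hW using hW
  have hinj : Function.Injective (algebraMap (𝓞 k) (𝓞 K)) :=
    FaithfulSMul.algebraMap_injective (𝓞 k) (𝓞 K)
  have hW0 : ∀ i, W i ≠ 0 := by
    intro i h0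
    have h1 := hW i
    rw [h0, zero_pow (by omega : e ≠ 0)] at h1
    exact hB0 i ((Ideal.map_eq_bot_iff_of_injective hinj).1 h1.symm)
  let V : Fin N → (FractionalIdeal (𝓞 K)⁰ K)ˣ := fun i =>
    FractionalIdeal.mk0 K ⟨W i, mem_nonZeroDivisors_of_ne_zero (hW0 i)⟩
  set φ : kˣ →* Kˣ := Units.map (algebraMap k K).toMonoidHom with hφ
  have hV : ∀ i, V i ^ (m * e) = toPrincipalIdeal (𝓞 K) K (φ (z i)) := by
    intro i
    change FractionalIdeal.mk0 K _ ^ (m * e) = _
    rw [← map_pow]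
    refine mk0_principal (b := algebraMap (𝓞 k) (𝓞 K) (x i ^ m * a i)) ?_ ?_
    · rw [SubmonoidClass.coe_pow]
      change W i ^ (m * e) = _
      have h1 := hBm i
      rw [SubmonoidClass.coe_pow] at h1
      rw [mul_comm m e, pow_mul, hW, ← Ideal.map_pow, h1, Ideal.map_span, Set.image_singleton]
    · change algebraMap k K ((z i : kˣ) : k) = _
      rw [hzval]
      rfl
  have hme : 2 ≤ m * e := by nlinarith
  refine ⟨K, inferInstance, inferInstance, hdegK, ?_⟩
  refine Pool.Agent.W240.CG.grp (ClassGroup (𝓞 K)) N (m * e) (2 * D) r hme (by omega)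
    (fun i => pi K (V i)) ?_ ?_
  · intro i
    rw [← map_pow, hV, pi_principal]
  · intro ℓ hℓ hℓm
    have h1 := fib k K N hℓ z (fun i => V i ^ (m * e / ℓ)) (by
      intro i
      rw [← pow_mul, Nat.div_mul_cancel hℓm]
      exact hV i) (fun b y hby => hind ℓ hℓ b y hby)
    rw [hdegK] at h1
    refine le_of_eq_of_le ?_ h1
    congr 1
    ext b
    simp only [Set.mem_ofPred_eq]
    rw [show (∏ i, pi K (V i) ^ (m * e / ℓ * (b i).val)) =
      ∏ i, pi K (V i ^ (m * e / ℓ)) ^ (b i).val from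
      Finset.prod_congr rfl fun i _ => by rw [map_pow, pow_mul]]

theorem step' (d m e : ℕ) (hm : 1 ≤ m) (he : 1 ≤ e) (h : UnboundedRank d m) :
    UnboundedRank (d * e) (m * e) := by
  rcases Nat.lt_or_ge e 2 with h1 | h1
  · interval_cases e
    simpa using h
  · exact step d m e hm h1 h

end Pool.Agent.H86RT
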