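import Mathlib
import Pool.Agent.H86RT.Step
import Pool.Agent.H86RT.Leg

/-!
# Quadratic fields with many classes of order four
-/

set_option autoImplicit false

namespace Pool.Agent.H86RT

open Polynomial NumberField nonZeroDivisors IsDedekindDomain Pool.Agent.W930.CG

/-- the arithmetic of a primitive solution -/
theorem solution {p b : ℕ} (hp : p.Prime) (hp4 : p % 4 = 1) (hb4 : b % 4 = 1)
    (hsq : Squarefree b) (hpb : ¬ p ∣ b) (h1 : IsSquare (p : ZMod b)) (h2 : IsSquare (b : ZMod p)) :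
    ∃ X Y Z : ℤ, (p : ℤ) * X ^ 2 + b * Y ^ 2 = Z ^ 2 ∧ Z ≠ 0 ∧ IsCoprime (2 * p * X) Z ∧
      IsCoprime Y (p : ℤ) := by
  have hb : 0 < b := by
    rcases Nat.eq_zero_or_pos b with h | h
    · rw [h] at hb4
      omega
    · exact h
  obtain ⟨x, y, z, h0, h⟩ := legendre hp.pos hb ((Nat.Prime.coprime_iff_not_dvd hp).2 hpb) h1 h2
  obtain ⟨X, Y, Z, hprim, hne, hXYZ⟩ := exists_primitive h0 h
  have hpp : Prime (p : ℤ) := Nat.prime_iff_prime_int.1 hp
  have hpb' : ¬ (p : ℤ) ∣ b := fun hd => hpb (Int.natCast_dvd_natCast.1 hd)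
  have hpY : ¬ (p : ℤ) ∣ Y := by
    intro hY
    have hZ : (p : ℤ) ∣ Z := by
      apply hpp.dvd_of_dvd_pow (n := 2)
      rw [← hXYZ]
      exact dvd_add (dvd_mul_right _ _) ((dvd_pow hY two_ne_zero).mul_left _)
    obtain ⟨Y', hY'⟩ := hY
    obtain ⟨Z', hZ'⟩ := hZ
    have hX : (p : ℤ) ∣ X := by
      apply hpp.dvd_of_dvd_pow (n := 2)
      refine ⟨Z' ^ 2 - b * Y' ^ 2, ?_⟩
      apply mul_left_cancel₀ hpp.ne_zero
      rw [hY', hZ'] at hXYZ
      linear_combination hXYZ
    exact hprim p hpp hX ⟨Y', hY'⟩ ⟨Z', hZ'⟩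
  have hpZ : ¬ (p : ℤ) ∣ Z := by
    intro hZ
    have h3 : (p : ℤ) ∣ b * Y ^ 2 := by
      have h4 : (b : ℤ) * Y ^ 2 = Z ^ 2 - p * X ^ 2 := by linarith
      rw [h4]
      exact dvd_sub (dvd_pow hZ two_ne_zero) (dvd_mul_right _ _)
    rcases hpp.dvd_or_dvd h3 with h4 | h4
    · exact hpb' h4
    · exact hpY (hpp.dvd_of_dvd_pow h4)
  have h2Z : ¬ (2 : ℤ) ∣ Z := by
    intro hZ
    have hp4' : ((p : ℤ) : ZMod 4) = 1 := by
      have : ((p : ℕ) : ZMod 4) = ((1 : ℕ) : ZMod 4) := (ZMod.natCast_eq_natCast_iff _ _ _).2 hp4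
      simpa using this
    have hb4' : ((b : ℤ) : ZMod 4) = 1 := by
      have : ((b : ℕ) : ZMod 4) = ((1 : ℕ) : ZMod 4) := (ZMod.natCast_eq_natCast_iff _ _ _).2 hb4
      simpa using this
    obtain ⟨Z', rfl⟩ := hZ
    have h3 := congrArg (fun t : ℤ => (t : ZMod 4)) hXYZ
    simp only [Int.cast_add, Int.cast_mul, Int.cast_pow] at h3
    rw [hp4', hb4'] at h3
    have h4 : ∀ u v w : ZMod 4, 1 * u ^ 2 + 1 * v ^ 2 = (((2 : ℤ) : ZMod 4) * w) ^ 2 →
        2 * u = 0 ∧ 2 * v = 0 := by decide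
    obtain ⟨h5, h6⟩ := h4 _ _ _ h3
    have h7 : ∀ t : ℤ, 2 * ((t : ℤ) : ZMod 4) = 0 → (2 : ℤ) ∣ t := by
      intro t ht
      have h8 : ((2 * t : ℤ) : ZMod 4) = 0 := by
        push_cast
        exact ht
      have h9 := (ZMod.intCast_zmod_eq_zero_iff_dvd _ 4).1 h8
      push_cast at h9
      omega
    exact hprim 2 Int.prime_two (h7 X h5) (h7 Y h6) (dvd_mul_right _ _)
  have hZ0 : Z ≠ 0 := fun h => h2Z (h ▸ dvd_zero _)
  refine ⟨X, Y, Z, hXYZ, hZ0, ?_, ?_⟩
  · apply isCoprime_of_prime_dvd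
    · rintro ⟨-, h⟩
      exact hZ0 h
    · intro q hq hq1 hq2
      have hq' : Prime q := hq
      rcases hq'.dvd_or_dvd hq1 with h3 | h3
      · rcases hq'.dvd_or_dvd h3 with h4 | h4
        · exact h2Z (((hq'.associated_of_dvd Int.prime_two h4).symm.dvd).trans hq2)
        · exact hpZ (((hq'.associated_of_dvd hpp h4).symm.dvd).trans hq2)
      · by_cases hqY : q ∣ Y
        · exact hprim q hq' h3 hqY hq2
        · have h4 : q ^ 2 ∣ (b : ℤ) * Y ^ 2 := by
            have h5 : (b : ℤ) * Y ^ 2 = Z ^ 2 - p * X ^ 2 := by linarith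
            rw [h5]
            exact dvd_sub (pow_dvd_pow_of_dvd hq2 2) ((pow_dvd_pow_of_dvd h3 2).mul_left _)
          have h5 : IsCoprime (q ^ 2) (Y ^ 2) :=
            ((Prime.coprime_iff_not_dvd hq').2 hqY).pow
          have h6 : q ^ 2 ∣ (b : ℤ) := h5.dvd_of_dvd_mul_right h4
          have h7 : q.natAbs * q.natAbs ∣ b := by
            have h8 := Int.natAbs_dvd_natAbs.2 h6
            rwa [Int.natAbs_pow, pow_two, Int.natAbs_natCast] at h8
          have h8 := hsq _ h7
          exact (Int.prime_iff_natAbs_prime.1 hq').ne_one (Nat.isUnit_iff.1 h8)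
  · exact ((Prime.coprime_iff_not_dvd hpp).2 hpY).symm

section ideals

variable {R : Type} [CommRing R]

theorem ideal_sq {p b : ℕ} {s : R} (hs : s ^ 2 = -((p : R) * b)) (hpb : IsCoprime (p : ℤ) b) :
    Ideal.span {(p : R), s} ^ 2 = Ideal.span {(p : R)} := by
  obtain ⟨c, d, hcd⟩ := hpb
  have hcd' : (c : R) * p + d * b = 1 := by exact_mod_cast congrArg (fun t : ℤ => (t : R)) hcd
  rw [pow_two, Ideal.span_pair_mul_span_pair]
  apply le_antisymm
  · rw [Ideal.span_le]
    rintro t (rfl | rfl | rfl | rfl) <;> rw [SetLike.mem_coe, Ideal.mem_span_singleton]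
    · exact dvd_mul_right _ _
    · exact dvd_mul_right _ _
    · exact dvd_mul_left _ _
    · exact ⟨-b, by linear_combination hs⟩
  · rw [Ideal.span_singleton_le_iff_mem]
    have h1 : (p : R) * p ∈ Ideal.span {(p : R) * p, (p : R) * s, s * p, s * s} :=
      Ideal.subset_span (by simp)
    have h2 : s * s ∈ Ideal.span {(p : R) * p, (p : R) * s, s * p, s * s} :=
      Ideal.subset_span (by simp)
    have h3 : (p : R) = c * (p * p) + (-d) * (s * s) := by
      linear_combination (-(p : R)) * hcd' + d * hs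
    have h4 := Ideal.add_mem _ (Ideal.mul_mem_left _ (c : R) h1)
      (Ideal.mul_mem_left _ (-d : R) h2)
    rwa [← h3] at h4

theorem ideal_id {p b : ℕ} {s : R} (hs : s ^ 2 = -((p : R) * b)) {X Y Z : ℤ}
    (h : (p : ℤ) * X ^ 2 + b * Y ^ 2 = Z ^ 2) (h1 : IsCoprime (2 * p * X) Z)
    (h2 : IsCoprime Y (p : ℤ)) :
    Ideal.span {(p : R)} * Ideal.span {(p : R) * X + Y * s, (Z : R)} ^ 2 =
      Ideal.span {(p : R) * X + Y * s} * Ideal.span {(p : R), s} := by
  have h' : (p : R) * X ^ 2 + b * Y ^ 2 = Z ^ 2 := by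
    exact_mod_cast congrArg (fun t : ℤ => (t : R)) h
  obtain ⟨u, v, huv⟩ := h1
  have huv' : (u : R) * (2 * p * X) + v * Z = 1 := by
    exact_mod_cast congrArg (fun t : ℤ => (t : R)) huv
  obtain ⟨w, t, hwt⟩ := h2
  have hwt' : (w : R) * Y + t * p = 1 := by
    exact_mod_cast congrArg (fun t : ℤ => (t : R)) hwt
  set α : R := (p : R) * X + Y * s with hα
  have hαα : α * ((p : R) * X - Y * s) = p * Z ^ 2 := by
    rw [hα]
    linear_combination (p : R) * h' - (Y : R) ^ 2 * hs
  rw [pow_two, Ideal.span_pair_mul_span_pair]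
  apply le_antisymm
  · rw [Ideal.mul_le]
    intro r hr x hx
    rw [Ideal.mem_span_singleton] at hr
    obtain ⟨r', rfl⟩ := hr
    have key : ∀ x ∈ Ideal.span {α * α, α * (Z : R), (Z : R) * α, (Z : R) * Z},
        (p : R) * x ∈ Ideal.span {α} * Ideal.span {(p : R), s} := by
      intro x hx
      have hpm : (p : R) ∈ Ideal.span {(p : R), s} := Ideal.subset_span (by simp)
      have hsm : s ∈ Ideal.span {(p : R), s} := Ideal.subset_span (by simp)
      have hαm : α ∈ Ideal.span {α} := Ideal.mem_span_singleton_self _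
      have hJ : ∀ y ∈ Ideal.span {(p : R), s}, α * y ∈ Ideal.span {α} * Ideal.span {(p : R), s} :=
        fun y hy => Ideal.mul_mem_mul hαm hy
      refine Submodule.span_induction (p := fun x _ => (p : R) * x ∈ _) ?_ ?_ ?_ ?_ hx
      · rintro y (rfl | rfl | rfl | rfl)
        · have := hJ _ (Ideal.mul_mem_left _ α hpm)
          convert this using 1
          ring
        · have := hJ _ (Ideal.mul_mem_left _ (Z : R) hpm)
          convert this using 1
          ring
        · have := hJ _ (Ideal.mul_mem_left _ (Z : R) hpm)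
          convert this using 1
          ring
        · have := hJ ((p : R) * X - Y * s) (Ideal.sub_mem _ (Ideal.mul_mem_right _ _ hpm)
            (Ideal.mul_mem_left _ _ hsm))
          rw [hαα] at this
          convert this using 1
          ring
      · rw [mul_zero]
        exact Ideal.zero_mem _
      · intro y z _ _ hy hz
        rw [mul_add]
        exact Ideal.add_mem _ hy hz
      · intro a y _ hy
        rw [smul_eq_mul, mul_left_comm]
        exact Ideal.mul_mem_left _ _ hy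
    have := Ideal.mul_mem_left _ r' (key x hx)
    convert this using 1
    ring
  · rw [Ideal.mul_le]
    intro r hr x hx
    rw [Ideal.mem_span_singleton] at hr
    obtain ⟨r', rfl⟩ := hr
    have hpp : (p : R) ∈ Ideal.span {(p : R)} := Ideal.mem_span_singleton_self _
    have g1 : α * α ∈ Ideal.span {α * α, α * (Z : R), (Z : R) * α, (Z : R) * Z} :=
      Ideal.subset_span (by simp)
    have g2 : α * (Z : R) ∈ Ideal.span {α * α, α * (Z : R), (Z : R) * α, (Z : R) * Z} :=
      Ideal.subset_span (by simp)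
    have g4 : (Z : R) * Z ∈ Ideal.span {α * α, α * (Z : R), (Z : R) * α, (Z : R) * Z} :=
      Ideal.subset_span (by simp)
    have kp : α * (p : R) ∈ Ideal.span {(p : R)} *
        Ideal.span {α * α, α * (Z : R), (Z : R) * α, (Z : R) * Z} := by
      have e1 : α * (p : R) = p * (u * (α * α) + u * p * (Z * Z) + v * (α * Z)) := by
        have e2 : α * (p : R) = α * p * (u * (2 * p * X) + v * Z) := by rw [huv', mul_one]
        have e3 : (2 : R) * p * X = α + (p * X - Y * s) := by rw [hα]; ring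
        rw [e2, e3]
        linear_combination (p : R) * u * hαα
      rw [e1]
      exact Ideal.mul_mem_mul hpp (Ideal.add_mem _ (Ideal.add_mem _ (Ideal.mul_mem_left _ _ g1)
        (Ideal.mul_mem_left _ _ g4)) (Ideal.mul_mem_left _ _ g2))
    have ks : α * s ∈ Ideal.span {(p : R)} *
        Ideal.span {α * α, α * (Z : R), (Z : R) * α, (Z : R) * Z} := by
      have e1 : α * s = (w * X + t * s) * (α * p) - w * (p * (Z * Z)) := by
        have e2 : α * s = α * s * (w * Y + t * p) := by rw [hwt', mul_one]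
        rw [e2]
        linear_combination (-(w : R)) * hαα
      rw [e1]
      exact Ideal.sub_mem _ (Ideal.mul_mem_left _ _ kp)
        (Ideal.mul_mem_left _ _ (Ideal.mul_mem_mul hpp g4))
    rw [Ideal.mem_span_pair] at hx
    obtain ⟨c, d, rfl⟩ := hx
    have e1 : α * r' * (c * p + d * s) = (r' * c) * (α * p) + (r' * d) * (α * s) := by ring
    rw [e1]
    exact Ideal.add_mem _ (Ideal.mul_mem_left _ _ kp) (Ideal.mul_mem_left _ _ ks)

end ideals

/-- the order at a prime of `ℚ` -/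
noncomputable def pv (p : ℕ) [Fact p.Prime] : ℚˣ →* Multiplicative ℤ where
  toFun x := Multiplicative.ofAdd (padicValRat p (x : ℚ))
  map_one' := by simp
  map_mul' x y := by
    rw [Units.val_mul, padicValRat.mul x.ne_zero y.ne_zero, ofAdd_add]

theorem two_four : UnboundedRank 2 4 := by
  classical
  intro r
  obtain ⟨p, hp, hp4, hpinj, hpsq⟩ := exists_residues
  obtain ⟨N, hN⟩ : ∃ N, N = r + 2 * 2 := ⟨_, rfl⟩
  set M : ℕ := ∏ i ∈ Finset.range N, p i with hM
  set b : ℕ → ℕ := fun i => ∏ j ∈ (Finset.range N).erase i, p j with hb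
  have hpb : ∀ i, i < N → p i * b i = M := fun i hi =>
    Finset.mul_prod_erase _ _ (Finset.mem_range.2 hi)
  have hcopr : ∀ i j, i ≠ j → Nat.Coprime (p i) (p j) := fun i j hij =>
    (Nat.coprime_primes (hp i) (hp j)).2 fun h => hij (hpinj h)
  have hprod4 : ∀ s : Finset ℕ, (∏ j ∈ s, p j) % 4 = 1 := by
    intro s
    induction s using Finset.induction_on with
    | empty => simp
    | insert a s ha ih =>
      rw [Finset.prod_insert ha, Nat.mul_mod, ih, hp4]
  have hsqf : ∀ s : Finset ℕ, Squarefree (∏ j ∈ s, p j) := by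
    intro s
    induction s using Finset.induction_on with
    | empty => simp
    | insert a s ha ih =>
      rw [Finset.prod_insert ha, Nat.squarefree_mul_iff]
      refine ⟨Nat.Coprime.prod_right fun j hj => hcopr a j ?_, (hp a).squarefree, ih⟩
      rintro rfl
      exact ha hj
  have hsqa : ∀ (i : ℕ) (s : Finset ℕ), i ∉ s →
      IsSquare ((p i : ℕ) : ZMod (∏ j ∈ s, p j)) := by
    intro i s
    induction s using Finset.induction_on with
    | empty =>
      intro _
      rw [Finset.prod_empty]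
      exact ⟨0, Subsingleton.elim _ _⟩
    | insert a s ha ih =>
      intro hi
      rw [Finset.prod_insert ha]
      have h1 : i ≠ a := fun h => hi (h ▸ Finset.mem_insert_self _ _)
      have h2 : i ∉ s := fun h => hi (Finset.mem_insert_of_mem h)
      refine isSquare_mul (Nat.Coprime.prod_right fun j hj => hcopr a j ?_) (hpsq i a h1) (ih h2)
      rintro rfl
      exact ha hj
  have hsqb : ∀ (i : ℕ) (s : Finset ℕ), i ∉ s →
      IsSquare (((∏ j ∈ s, p j : ℕ)) : ZMod (p i)) := by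
    intro i s hi
    rw [Nat.cast_prod]
    exact Finset.isSquare_prod _ fun j hj => hpsq j i (by
      rintro rfl
      exact hi hj)
  have hdvd : ∀ i, ¬ p i ∣ b i := by
    intro i hd
    obtain ⟨j, hj, hj2⟩ := (Nat.prime_iff.1 (hp i)).exists_mem_finset_dvd hd
    have h1 := (Nat.prime_dvd_prime_iff_eq (hp i) (hp j)).1 hj2
    exact (Finset.mem_erase.1 hj).1 (hpinj h1).symm
  have hMpos : 0 < M := Finset.prod_pos fun i _ => (hp i).pos
  -- the field
  have hirr : Irreducible (X ^ 2 - C (((-(M : ℤ) : ℤ) : 𝓞 ℚ) : ℚ)) := by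
    apply X_pow_sub_C_irreducible_of_prime Nat.prime_two
    intro c hc
    have h1 : (((-(M : ℤ) : ℤ) : 𝓞 ℚ) : ℚ) = -(M : ℚ) := by simp
    rw [h1] at hc
    have h2 : (0 : ℚ) < M := by exact_mod_cast hMpos
    nlinarith [sq_nonneg c]
  obtain ⟨K, _, _, inst, θ, hdeg, hθ⟩ := exists_radical ℚ 2 (by norm_num) ((-(M : ℤ) : ℤ) : 𝓞 ℚ)
    hirr
  have hinst : inst = DivisionRing.toRatAlgebra := Subsingleton.elim _ _
  subst hinst
  have hθ2 : θ ^ 2 = -(M : 𝓞 K) := by
    rw [hθ]
    simp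
  -- the ideals
  have hθi : ∀ i, i < N → θ ^ 2 = -((p i : 𝓞 K) * b i) := by
    intro i hi
    rw [hθ2, ← hpb i hi]
    push_cast
    rfl
  have hmem : ∀ i : Fin N, (i : ℕ) ∉ (Finset.range N).erase i := fun i => Finset.notMem_erase _ _
  have hsol := fun i : Fin N => solution (hp i) (hp4 i) (hprod4 _) (hsqf _) (hdvd i)
    (hsqa i _ (hmem i)) (hsqb i _ (hmem i))
  choose X Y Z hXYZ hZ0 hc1 hc2 using hsol
  have hp0 : ∀ i, ((p i : ℕ) : 𝓞 K) ≠ 0 := fun i => by exact_mod_cast (hp i).ne_zero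
  let α : Fin N → 𝓞 K := fun i => (p i : 𝓞 K) * X i + Y i * θ
  have hα0 : ∀ i, α i ≠ 0 := by
    intro i h0
    have h1 : α i * ((p i : 𝓞 K) * X i - Y i * θ) = p i * (Z i : 𝓞 K) ^ 2 := by
      have h2 := hθi i i.2
      have h3 : ((p i : ℕ) : 𝓞 K) * (X i : 𝓞 K) ^ 2 + (b i : 𝓞 K) * (Y i : 𝓞 K) ^ 2 =
          (Z i : 𝓞 K) ^ 2 := by
        exact_mod_cast congrArg (fun t : ℤ => (t : 𝓞 K)) (hXYZ i)
      change ((p i : 𝓞 K) * X i + Y i * θ) * _ = _
      linear_combination (p i : 𝓞 K) * h3 - (Y i : 𝓞 K) ^ 2 * h2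
    rw [h0, zero_mul] at h1
    have h2 : ((p i : ℕ) : 𝓞 K) * (Z i : 𝓞 K) ^ 2 ≠ 0 :=
      mul_ne_zero (hp0 i) (pow_ne_zero 2 (by exact_mod_cast hZ0 i))
    exact h2 h1.symm
  let P : Fin N → (Ideal (𝓞 K))⁰ := fun i => ⟨Ideal.span {(p i : 𝓞 K), θ},
    mem_nonZeroDivisors_of_ne_zero (by
      intro h
      have h1 : ((p i : ℕ) : 𝓞 K) ∈ Ideal.span {((p i : ℕ) : 𝓞 K), θ} :=
        Ideal.subset_span (by simp)
      rw [h] at h1
      exact hp0 i (by simpa using h1))⟩
  let W : Fin N → (Ideal (𝓞 K))⁰ := fun i => ⟨Ideal.span {α i, (Z i : 𝓞 K)},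
    mem_nonZeroDivisors_of_ne_zero (by
      intro h
      have h1 : α i ∈ Ideal.span {α i, (Z i : 𝓞 K)} := Ideal.subset_span (by simp)
      rw [h] at h1
      exact hα0 i (by simpa using h1))⟩
  have hval : ∀ w : 𝓞 K, w ≠ 0 → (w : K) ≠ 0 := fun w hw h0 =>
    hw (RingOfIntegers.ext (by simpa using h0))
  let z : Fin N → ℚˣ := fun i => Units.mk0 (p i : ℚ) (by exact_mod_cast (hp i).ne_zero)
  have hP2 : ∀ i, FractionalIdeal.mk0 K (P i) ^ 2 =
      toPrincipalIdeal (𝓞 K) K (Units.map (algebraMap ℚ K).toMonoidHom (z i)) := by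
    intro i
    rw [← map_pow]
    refine mk0_principal (b := (p i : 𝓞 K)) ?_ ?_
    · rw [SubmonoidClass.coe_pow]
      exact ideal_sq (hθi i i.2)
        (Nat.isCoprime_iff_coprime.2 ((Nat.Prime.coprime_iff_not_dvd (hp i)).2 (hdvd i)))
    · change algebraMap ℚ K (p i : ℚ) = _
      simp
  have hW2 : ∀ i, pi K (FractionalIdeal.mk0 K (W i)) ^ 2 = pi K (FractionalIdeal.mk0 K (P i)) := by
    intro i
    let Q1 : (Ideal (𝓞 K))⁰ := ⟨Ideal.span {(p i : 𝓞 K)}, mem_nonZeroDivisors_of_ne_zero (by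
      rw [Ne, Submodule.zero_eq_bot, Ideal.span_singleton_eq_bot]
      exact hp0 i)⟩
    let Q2 : (Ideal (𝓞 K))⁰ := ⟨Ideal.span {α i}, mem_nonZeroDivisors_of_ne_zero (by
      rw [Ne, Submodule.zero_eq_bot, Ideal.span_singleton_eq_bot]
      exact hα0 i)⟩
    have e1 : Q1 * W i ^ 2 = Q2 * P i := by
      apply Subtype.ext
      exact ideal_id (hθi i i.2) (hXYZ i) (hc1 i) (hc2 i)
    have e2 : pi K (FractionalIdeal.mk0 K Q1) = 1 := by
      rw [mk0_principal (B := Q1) (b := (p i : 𝓞 K)) (x := Units.mk0 _ (hval _ (hp0 i))) rfl rfl,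
        pi_principal]
    have e3 : pi K (FractionalIdeal.mk0 K Q2) = 1 := by
      rw [mk0_principal (B := Q2) (b := α i) (x := Units.mk0 _ (hval _ (hα0 i))) rfl rfl,
        pi_principal]
    have e4 := congrArg (fun I => pi K (FractionalIdeal.mk0 K I)) e1
    simp only [map_mul, map_pow, e2, e3, one_mul] at e4
    exact e4
  refine ⟨K, inferInstance, inferInstance, hdeg, ?_⟩
  refine Pool.Agent.W240.CG.grp (ClassGroup (𝓞 K)) N 4 (2 * 2) r (by norm_num) (by omega)
    (fun i => pi K (FractionalIdeal.mk0 K (W i))) ?_ ?_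
  · intro i
    have h1 : pi K (FractionalIdeal.mk0 K (W i)) ^ 4 =
        (pi K (FractionalIdeal.mk0 K (W i)) ^ 2) ^ 2 := by rw [← pow_mul]
    rw [h1, hW2, ← map_pow, hP2, pi_principal]
  · intro ℓ hℓ hℓm
    have hℓ2 : ℓ = 2 := by
      have h1 : ℓ ∣ 2 ^ 2 := hℓm
      exact (Nat.prime_dvd_prime_iff_eq hℓ Nat.prime_two).1 (hℓ.dvd_of_dvd_pow h1)
    subst hℓ2
    have h1 := fib ℚ K N hℓ z (fun i => FractionalIdeal.mk0 K (P i)) hP2 (by
      intro e y hy i
      have : Fact (p i).Prime := ⟨hp i⟩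
      have h2 := congrArg (pv (p i)) hy
      rw [map_prod, map_pow, Finset.prod_eq_single i] at h2
      · have h3 : pv (p i) (z i) = Multiplicative.ofAdd 1 := by
          change Multiplicative.ofAdd (padicValRat (p i) (p i : ℚ)) = _
          rw [padicValRat.self (hp i).one_lt]
        rw [map_zpow, h3] at h2
        have h4 := congrArg Multiplicative.toAdd h2
        rw [toAdd_zpow, toAdd_pow, toAdd_ofAdd, smul_eq_mul, nsmul_eq_mul, mul_one] at h4
        exact ⟨_, h4⟩
      · intro j _ hij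
        have h3 : pv (p i) (z j) = 1 := by
          change Multiplicative.ofAdd (padicValRat (p i) ((p j : ℕ) : ℚ)) = _
          rw [padicValRat.of_nat, padicValNat.eq_zero_of_not_dvd]
          · rfl
          · intro hd
            have h4 := (Nat.prime_dvd_prime_iff_eq (hp i) (hp j)).1 hd
            exact hij (Fin.ext (hpinj h4).symm)
        rw [map_zpow, h3, one_zpow]
      · intro hi
        exact absurd (Finset.mem_univ i) hi)
    rw [hdeg] at h1
    refine le_of_eq_of_le ?_ h1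
    congr 1
    ext a
    simp only [Set.mem_ofPred_eq]
    rw [show (∏ i, pi K (FractionalIdeal.mk0 K (W i)) ^ (4 / 2 * (a i).val)) =
      ∏ i, pi K (FractionalIdeal.mk0 K (P i)) ^ (a i).val from
      Finset.prod_congr rfl fun i _ => by rw [pow_mul, ← hW2]]

end Pool.Agent.H86RT
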