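import Mathlib
import Pool.Agent.H86RT.Quad

/-!
# The main theorem
-/

set_option autoImplicit false

namespace Pool.Agent.H86RT

open NumberField

theorem exists_inj (n t : ℕ) (ht : 1 ≤ t) :
    ∃ g : ZMod n →+ ZMod (n * t), Function.Injective g := by
  refine ⟨ZMod.lift n ⟨(AddMonoidHom.mulLeft (t : ZMod (n * t))).comp
    (Int.castAddHom (ZMod (n * t))), ?_⟩, ?_⟩
  · change (t : ZMod (n * t)) * (((n : ℤ) : ℤ) : ZMod (n * t)) = 0
    rw [Int.cast_natCast, ← Nat.cast_mul, mul_comm, ZMod.natCast_self]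
  · rw [injective_iff_map_eq_zero]
    intro x hx
    obtain ⟨y, rfl⟩ := ZMod.intCast_surjective x
    rw [ZMod.lift_coe] at hx
    change (t : ZMod (n * t)) * ((y : ℤ) : ZMod (n * t)) = 0 at hx
    have h1 : (((t : ℤ) * y : ℤ) : ZMod (n * t)) = 0 := by
      push_cast
      exact hx
    rw [ZMod.intCast_zmod_eq_zero_iff_dvd] at h1 ⊢
    push_cast at h1
    rw [mul_comm (n : ℤ)] at h1
    exact Int.dvd_of_mul_dvd_mul_left (by exact_mod_cast (by omega : t ≠ 0)) h1

theorem UnboundedRank.of_dvd {d m n : ℕ} (hm : 1 ≤ m) (hn : n ∣ m) (h : UnboundedRank d m) :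
    UnboundedRank d n := by
  obtain ⟨t, rfl⟩ := hn
  have ht1 : 1 ≤ t := Nat.pos_of_ne_zero fun h0 => by
    rw [h0, mul_zero] at hm
    omega
  obtain ⟨g, hg⟩ := exists_inj n t ht1
  intro r
  obtain ⟨K, hK1, hK2, hK3, f, hf⟩ := h r
  refine ⟨K, hK1, hK2, hK3, f.comp (AddMonoidHom.toMultiplicative
    (AddMonoidHom.compLeft g (Fin r))), ?_⟩
  rw [MonoidHom.coe_comp]
  refine hf.comp ?_
  intro x y hxy
  apply Multiplicative.toAdd.injective
  funext i
  exact hg (congrFun (congrArg Multiplicative.toAdd hxy) i)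

theorem closure (d m e n : ℕ) (hm : 1 ≤ m) (he : 1 ≤ e) (hn : n ∣ m * e)
    (h : UnboundedRank d m) : UnboundedRank (d * e) n :=
  (step' d m e hm he h).of_dvd (Nat.mul_pos hm he) hn

theorem one_one : UnboundedRank 1 1 := by
  intro r
  refine ⟨ℚ, inferInstance, inferInstance, Module.finrank_self ℚ, 1, ?_⟩
  intro x y _
  apply Multiplicative.toAdd.injective
  funext i
  exact Subsingleton.elim _ _

theorem main (d m : ℕ) (hd : 1 ≤ d) (h : m ∣ d * Nat.gcd d 2) : UnboundedRank d m := by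
  rcases Nat.even_or_odd' d with ⟨e, rfl | rfl⟩
  · have h1 : Nat.gcd (2 * e) 2 = 2 := Nat.gcd_eq_right (dvd_mul_right 2 e)
    rw [h1] at h
    refine closure 2 4 e m (by norm_num) (by omega) ?_ two_four
    convert h using 1
    ring
  · have h1 : Nat.gcd (2 * e + 1) 2 = 1 := by
      rw [Nat.gcd_comm, Nat.gcd_rec]
      have h2 : (2 * e + 1) % 2 = 1 := by omega
      rw [h2, Nat.gcd_one_left]
    rw [h1, mul_one] at h
    have h2 := closure 1 1 (2 * e + 1) m le_rfl (by omega) (by rwa [one_mul]) one_one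
    rwa [one_mul] at h2

end Pool.Agent.H86RT
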